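import Pool.Agent.W795.ES.Stm
import Pool.Agent.W790.TQ.Est2
import Pool.Agent.W918.ES.GronL1

/-! Growth of `∂ₜu` in terms of the production of its own energy. -/

set_option autoImplicit false
set_option linter.all false

open MeasureTheory Set Filter Topology Metric
open scoped InnerProductSpace NNReal ENNReal

namespace Pool.Agent.TH791.NSA

open Pool.Agent.W795.TQ
open Pool.Agent.W795.ES
open H772R2.NSR (Frame prim_cont memLp_ii ae_deriv_of_prim prim_shift)
open H772R2.NSG (St by_parts ii_of_int int_inner)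
open Pool.Agent.W790.TQ (toSt sq_prim prim_shift' young fatou)
open Pool.Agent.W918.ES (gronL1)

section eqn

variable {H K : Type} [NormedAddCommGroup H] [InnerProductSpace ℝ H] [CompleteSpace H]
  [NormedAddCommGroup K] [InnerProductSpace ℝ K] [CompleteSpace K]
  {W : Submodule ℝ (H × K)} {m : H → K} {B : H → H → K} {C c ν T : ℝ} {F F1 : ℝ → K}
  {u u1 : ℝ → H} {z z1 : ℝ → K}

theorem B_zero (Tr : Tri W m B) {r : H × K} (hr : r ∈ W) : B 0 r.1 = 0 := by
  have h := Tr.linl 0 W.zero_mem 0 W.zero_mem r hr 1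
  simp only [Prod.fst_zero, smul_zero, add_zero, one_smul] at h
  simpa using h

theorem B_zero' (Tr : Tri W m B) {r : H × K} (hr : r ∈ W) : B r.1 0 = 0 := by
  have h := Tr.linr 0 W.zero_mem 0 W.zero_mem r hr 1
  simp only [Prod.fst_zero, smul_zero, add_zero, one_smul] at h
  simpa using h

theorem m_smul (Tr : Tri W m B) {p : H × K} (hp : p ∈ W) (a : ℝ) :
    m (a • p.1) = a ^ 2 • m p.1 := by
  have hap : a • p ∈ W := W.smul_mem a hp
  have h1 := Tr.diag _ hap
  have h2 := Tr.diag _ hp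
  have h3 := Tr.linl 0 W.zero_mem p hp (a • p) hap a
  have h4 := Tr.linr 0 W.zero_mem p hp p hp a
  simp only [Prod.fst_zero, zero_add, Prod.smul_fst] at h1 h3 h4
  rw [← h1, h3, h4, ← h2]
  have h5 := B_zero Tr hap
  simp only [Prod.smul_fst] at h5
  rw [h5, B_zero' Tr hp, zero_add, zero_add, smul_smul, sq]

/-- the exact identity for the differences -/
theorem diff_eq (Fr : Frame W m C) (hν : 0 < ν) (hT : 0 < T) (hF : FH T F F1)
    (S : Str W m ν T F u u1 z z1) {h r t : ℝ} (hh : 0 < h) (hr : 0 ≤ r) (hrt : r < t)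
    (hth : t + h ≤ T) :
    ‖u (t + h) - u t‖ ^ 2 - ‖u (r + h) - u r‖ ^ 2 =
      ∫ s in r..t, 2 * (⟪F (s + h) - F s, z (s + h) - z s⟫_ℝ - ν * ‖z (s + h) - z s‖ ^ 2 -
        ⟪m (u (s + h) - u s), z s⟫_ℝ) := by
  have hThh : t ≤ T - h := by linarith
  have hg1 : MemLp (fun s => u1 (s + h) - u1 s) 2 (volume.restrict (Ioc 0 (T - h))) := by
    have hmp : MeasurePreserving (fun s : ℝ => s + h) (volume.restrict (Ioc 0 (T - h)))
        (volume.restrict (Ioc h T)) := by
      have := (measurePreserving_add_right volume h).restrict_preimage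
        (measurableSet_Ioc : MeasurableSet (Ioc h T))
      rwa [preimage_add_const_Ioc, sub_self] at this
    exact ((S.u1m.mono_measure (Measure.restrict_mono (Ioc_subset_Ioc_left hh.le)
      le_rfl)).comp_measurePreserving hmp).sub
      (S.u1m.mono_measure (Measure.restrict_mono (Ioc_subset_Ioc_right (by linarith)) le_rfl))
  have hu1i : Integrable u1 (volume.restrict (Ioc 0 T)) := S.u1m.integrable (by norm_num)
  have hgp : ∀ a b, 0 ≤ a → a ≤ b → b ≤ T - h → (u (b + h) - u b) - (u (a + h) - u a) =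
      ∫ s in a..b, (u1 (s + h) - u1 s) := by
    intro a b ha hab hb
    have i1 : IntervalIntegrable u1 volume a b := ii_of_int hu1i ha hab (by linarith)
    have i2 : IntervalIntegrable (fun s => u1 (s + h)) volume a b := by
      have := (ii_of_int hu1i (by linarith : 0 ≤ a + h) (by linarith) (by linarith :
        b + h ≤ T)).comp_add_right h
      simpa using this
    rw [intervalIntegral.integral_sub i2 i1, intervalIntegral.integral_comp_add_right (fun s => u1 s),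
      ← S.pu a b ha hab (by linarith), ← S.pu (a + h) (b + h) (by linarith) (by linarith)
      (by linarith)]
    abel
  have e1 := sq_prim hg1 hgp hr hrt.le hThh
  rw [e1]
  obtain ⟨Z, St1⟩ := toSt hF S
  have hw := St1.deriv_weak Fr hT
  rw [ae_restrict_iff' measurableSet_Ioc] at hw
  have hw2 := (quasiMeasurePreserving_add_right volume h).ae hw
  refine intervalIntegral.integral_congr_ae ?_
  filter_upwards [hw, hw2] with s k1 k2 hs
  rw [uIoc_of_le hrt.le] at hs
  have hs1 : s ∈ Ioc 0 T := ⟨by linarith [hs.1], by linarith [hs.2]⟩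
  have hs2 : s + h ∈ Ioc 0 T := ⟨by linarith [hs.1], by linarith [hs.2]⟩
  have hsI := Ioc_subset_Icc_self hs1
  have hsI2 := Ioc_subset_Icc_self hs2
  have hW : (u (s + h) - u s, z (s + h) - z s) ∈ W := W.sub_mem (S.mem _ hsI2) (S.mem _ hsI)
  have e1 := k1 hs1 _ hW
  have e2 := k2 hs2 _ hW
  have e3 := Fr.anti _ (S.mem _ hsI2) _ (S.mem _ hsI)
  simp only at e1 e2 e3
  have e4 : ⟪u1 (s + h) - u1 s, u (s + h) - u s⟫_ℝ =
      ⟪F (s + h) - F s, z (s + h) - z s⟫_ℝ - ν * ‖z (s + h) - z s‖ ^ 2 -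
        ⟪m (u (s + h) - u s), z s⟫_ℝ := by
    rw [inner_sub_left, e1, e2, ← inner_sub_left]
    have e5 : F (s + h) - ν • z (s + h) + m (u (s + h)) - (F s - ν • z s + m (u s)) =
        (F (s + h) - F s) - ν • (z (s + h) - z s) + (m (u (s + h)) - m (u s)) := by
      rw [smul_sub]; abel
    rw [e5, inner_add_left, inner_sub_left, inner_smul_left, real_inner_self_eq_norm_sq, e3]
    simp
    ring
  rw [e4]

/-- continuity of `m` -/
theorem m_cont (Fr : Frame W m C) {α : Type} {l : Filter α} {p : α → H × K} {q : H × K}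
    (hp : ∀ᶠ a in l, p a ∈ W) (hq : q ∈ W) (h : Tendsto p l (𝓝 q)) :
    Tendsto (fun a => m (p a).1) l (𝓝 (m q.1)) := by
  rw [tendsto_iff_norm_sub_tendsto_zero]
  have h1 : Tendsto (fun a => (p a).1) l (𝓝 q.1) := (continuous_fst.tendsto q).comp h
  have h2 : Tendsto (fun a => (p a).2) l (𝓝 q.2) := (continuous_snd.tendsto q).comp h
  have h3 : Tendsto (fun a => C * (‖(p a).1 - q.1‖ * ‖(p a).2 - q.2‖ ^ 3 *
      (‖(p a).2‖ + ‖q.2‖) ^ 4)) l (𝓝 0) := by
    have a1 : Tendsto (fun a => ‖(p a).1 - q.1‖) l (𝓝 0) := by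
      have := (h1.sub_const q.1).norm; simpa using this
    have a2 : Tendsto (fun a => ‖(p a).2 - q.2‖) l (𝓝 0) := by
      have := (h2.sub_const q.2).norm; simpa using this
    have a3 := ((a1.mul (a2.pow 3)).mul ((h2.norm.add_const ‖q.2‖).pow 4)).const_mul C
    simpa using a3
  have h4 : Tendsto (fun a => ‖m (p a).1 - m q.1‖ ^ 4) l (𝓝 0) := by
    refine squeeze_zero' (Eventually.of_forall fun a => by positivity) ?_ h3
    filter_upwards [hp] with a ha
    exact Fr.lips _ ha _ hq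
  have s0 : Tendsto Real.sqrt (𝓝 0) (𝓝 0) := by simpa using Real.continuous_sqrt.tendsto 0
  have h5 := s0.comp (s0.comp h4)
  refine h5.congr fun a => ?_
  simp only [Function.comp]
  rw [show ‖m (p a).1 - m q.1‖ ^ 4 = (‖m (p a).1 - m q.1‖ ^ 2) ^ 2 by ring,
    Real.sqrt_sq (by positivity), Real.sqrt_sq (norm_nonneg _)]

/-- the energy inequality for the derivative, at good times -/
theorem lim_up (Fr : Frame W m C) (U : Univ W m c) (Tr : Tri W m B) (hν : 0 < ν) (hT : 0 < T)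
    (hF : FH T F F1) (S : Str W m ν T F u u1 z z1) {r t : ℝ} {a : H} (hr : 0 ≤ r) (hrt : r < t)
    (htT : t < T) (dr : HasDerivAt u a r) (dt : HasDerivAt u (u1 t) t) :
    Integrable (fun s => ⟪m (u1 s), z s⟫_ℝ) (volume.restrict (Ioc r t)) ∧
    ‖u1 t‖ ^ 2 - ‖a‖ ^ 2 ≤ ∫ s in Ioc r t, 2 * (⟪F1 s, z1 s⟫_ℝ - ν * ‖z1 s‖ ^ 2 -
        ⟪m (u1 s), z s⟫_ℝ) := by
  set h : ℕ → ℝ := fun n => (T - t) / (n + 1) with hh
  have hTt : 0 < T - t := by linarith
  have hpos : ∀ n, 0 < h n := fun n => by rw [hh]; positivity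
  have hle : ∀ n, t + h n ≤ T := by
    intro n
    have : h n ≤ T - t := by
      rw [hh]
      refine div_le_self hTt.le ?_
      have : (0 : ℝ) ≤ n := Nat.cast_nonneg n
      linarith
    linarith
  have hlim0 : Tendsto h atTop (𝓝 0) := by
    have := (tendsto_one_div_add_atTop_nhds_zero_nat (𝕜 := ℝ)).const_mul (T - t)
    rw [mul_zero] at this
    refine this.congr fun n => ?_
    rw [hh]; ring
  have hlim : Tendsto h atTop (𝓝[>] 0) :=
    tendsto_nhdsWithin_iff.2 ⟨hlim0, Eventually.of_forall fun n => hpos n⟩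
  have hz1i : Integrable z1 (volume.restrict (Ioc 0 T)) := S.z1m.integrable (by norm_num)
  have hu1i : Integrable u1 (volume.restrict (Ioc 0 T)) := S.u1m.integrable (by norm_num)
  have hzc : ContinuousOn z (Icc 0 T) := prim_cont S.z1m S.pz
  have huc : ContinuousOn u (Icc 0 T) := prim_cont S.u1m S.pu
  have hFc : ContinuousOn F (Icc 0 T) := prim_cont hF.memLp hF.prim
  have hF2 : Integrable (fun s => ‖F1 s‖ ^ 2) (volume.restrict (Ioc 0 T)) :=
    (memLp_two_iff_integrable_sq_norm hF.memLp.aestronglyMeasurable).mp hF.memLp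
  have hz2 : Integrable (fun s => ‖z1 s‖ ^ 2) (volume.restrict (Ioc 0 T)) :=
    (memLp_two_iff_integrable_sq_norm S.z1m.aestronglyMeasurable).mp S.z1m
  have hsub : (volume.restrict (Ioc r t) : Measure ℝ) ≤ volume.restrict (Ioc 0 T) :=
    Measure.restrict_mono (Ioc_subset_Ioc hr htT.le) le_rfl
  -- the quotients
  set du : ℕ → ℝ → H := fun n s => (h n)⁻¹ • (u (s + h n) - u s) with hdu
  set dz : ℕ → ℝ → K := fun n s => (h n)⁻¹ • (z (s + h n) - z s) with hdz
  set dF : ℕ → ℝ → K := fun n s => (h n)⁻¹ • (F (s + h n) - F s) with hdF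
  have hdt : Tendsto (fun n => ‖du n t‖ ^ 2) atTop (𝓝 (‖u1 t‖ ^ 2)) :=
    ((dt.tendsto_slope_zero_right.comp hlim).norm).pow 2
  have hdr : Tendsto (fun n => ‖du n r‖ ^ 2) atTop (𝓝 (‖a‖ ^ 2)) :=
    ((dr.tendsto_slope_zero_right.comp hlim).norm).pow 2
  have hdzl : ∀ᵐ s ∂(volume.restrict (Ioc r t)), Tendsto (fun n => dz n s) atTop (𝓝 (z1 s)) := by
    filter_upwards [ae_mono hsub (ae_deriv_of_prim hT (memLp_ii hT.le S.z1m) S.pz)] with s hs
    exact hs.tendsto_slope_zero_right.comp hlim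
  have hdul : ∀ᵐ s ∂(volume.restrict (Ioc r t)), Tendsto (fun n => du n s) atTop (𝓝 (u1 s)) := by
    filter_upwards [ae_mono hsub (ae_deriv_of_prim hT (memLp_ii hT.le S.u1m) S.pu)] with s hs
    exact hs.tendsto_slope_zero_right.comp hlim
  have hdFl : ∀ᵐ s ∂(volume.restrict (Ioc r t)), Tendsto (fun n => dF n s) atTop (𝓝 (F1 s)) := by
    filter_upwards [ae_mono hsub (ae_deriv_of_prim hT (memLp_ii hT.le hF.memLp) hF.prim)] with s hs
    exact hs.tendsto_slope_zero_right.comp hlim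
  obtain ⟨c1, hc1⟩ := S.bd
  obtain ⟨Z, hZ⟩ : ∃ Z, ∀ s ∈ Icc 0 T, ‖z s‖ ≤ Z := by
    obtain ⟨Z, hZ⟩ := (isCompact_Icc.image_of_continuousOn hzc).isBounded.exists_norm_le
    exact ⟨Z, fun s hs => hZ _ ⟨s, hs, rfl⟩⟩
  have hsI : ∀ n, ∀ s ∈ Icc r t, s ∈ Icc 0 T ∧ s + h n ∈ Icc 0 T := by
    intro n s hs
    have := hpos n
    have := hle n
    exact ⟨⟨by linarith [hs.1], by linarith [hs.2]⟩, ⟨by linarith [hs.1], by linarith [hs.2]⟩⟩
  have hcont : ∀ n, ContinuousOn (fun s => s + h n) (Icc r t) := fun n => by fun_prop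
  have hs0 : Icc r t ⊆ Icc 0 T := Icc_subset_Icc hr (by linarith)
  have hs1 : ∀ n, MapsTo (fun s => s + h n) (Icc r t) (Icc 0 T) := fun n s hs => (hsI n s hs).2
  have cdu : ∀ n, ContinuousOn (du n) (Icc r t) := fun n =>
    continuousOn_const.smul ((huc.comp (hcont n) (hs1 n)).sub (huc.mono hs0))
  have cdz : ∀ n, ContinuousOn (dz n) (Icc r t) := fun n =>
    continuousOn_const.smul ((hzc.comp (hcont n) (hs1 n)).sub (hzc.mono hs0))
  have cdF : ∀ n, ContinuousOn (dF n) (Icc r t) := fun n =>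
    continuousOn_const.smul ((hFc.comp (hcont n) (hs1 n)).sub (hFc.mono hs0))
  have hWn : ∀ n, ∀ s ∈ Icc r t, (du n s, dz n s) ∈ W := by
    intro n s hs
    have h1 : (u (s + h n) - u s, z (s + h n) - z s) ∈ W :=
      W.sub_mem (S.mem _ (hsI n s hs).2) (S.mem _ (hsI n s hs).1)
    exact W.smul_mem (h n)⁻¹ h1
  have cm : ∀ n, ContinuousOn (fun s => m (du n s)) (Icc r t) := by
    intro n s hs
    exact m_cont (p := fun s => (du n s, dz n s)) (q := (du n s, dz n s)) Fr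
      (by filter_upwards [self_mem_nhdsWithin] with x hx using hWn n x hx) (hWn n s hs)
      ((cdu n s hs).prodMk_nhds (cdz n s hs))
  have hml : ∀ᵐ s ∂(volume.restrict (Ioc r t)),
      Tendsto (fun n => ⟪m (du n s), z s⟫_ℝ) atTop (𝓝 ⟪m (u1 s), z s⟫_ℝ) := by
    filter_upwards [hdul, hdzl, ae_mono hsub S.mem1, ae_restrict_mem measurableSet_Ioc]
      with s k1 k2 k3 k4
    exact (m_cont (p := fun n => (du n s, dz n s)) (q := (u1 s, z1 s)) Fr
      (Eventually.of_forall fun n => hWn n s (Ioc_subset_Icc_self k4)) k3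
      (k1.prodMk_nhds k2)).inner tendsto_const_nhds
  have hdub : ∀ n, ∀ s ∈ Icc r t, ‖du n s‖ ≤ max c1 0 := by
    intro n s hs
    obtain ⟨k1, k2⟩ := hsI n s hs
    have k3 : ‖u (s + h n) - u s‖ ≤ max c1 0 * h n := by
      rw [S.pu s (s + h n) k1.1 (by linarith [hpos n]) k2.2]
      have k4 := intervalIntegral.norm_integral_le_of_norm_le_const_ae (f := u1) (a := s)
        (b := s + h n) (C := max c1 0) (by
          rw [ae_restrict_iff' measurableSet_Ioc] at hc1
          filter_upwards [hc1] with x hx hx2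
          rw [uIoc_of_le (by linarith [hpos n])] at hx2
          exact (hx ⟨by linarith [hx2.1, k1.1], by linarith [hx2.2, k2.2]⟩).trans (le_max_left _ _))
      rwa [add_sub_cancel_left, abs_of_pos (hpos n)] at k4
    rw [hdu, norm_smul, norm_inv, Real.norm_eq_abs, abs_of_pos (hpos n), inv_mul_le_iff₀ (hpos n),
      mul_comm]
    exact k3
  -- measurability of the production
  have hmm : AEStronglyMeasurable (fun s => ⟪m (u1 s), z s⟫_ℝ) (volume.restrict (Ioc r t)) := by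
    refine aestronglyMeasurable_of_tendsto_ae atTop (f := fun n s => ⟪m (du n s), z s⟫_ℝ) ?_ hml
    intro n
    exact (((cm n).inner (hzc.mono hs0)).mono Ioc_subset_Icc_self).aestronglyMeasurable
      measurableSet_Ioc
  -- Young
  set K1 : ℝ := 14 * c ^ 4 / ν ^ 3 * ((max c1 0) ^ 2 * (max Z 0) ^ 4) with hK1
  have hmW : ∀ p ∈ W, ∀ y e : K, 2 * (⟪e, p.2⟫_ℝ - ν * ‖p.2‖ ^ 2 - ⟪m p.1, y⟫_ℝ) + ν * ‖p.2‖ ^ 2 ≤
      2 / ν * ‖e‖ ^ 2 + 14 * c ^ 4 / ν ^ 3 * (‖p.1‖ ^ 2 * ‖y‖ ^ 4) := by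
    intro p hp y e
    have hq := U.quart _ hp
    have hx : |⟪e, p.2⟫_ℝ| ≤ ‖e‖ * (Real.sqrt ‖p.2‖) ^ 2 := by
      rw [Real.sq_sqrt (norm_nonneg _)]
      exact abs_real_inner_le_norm _ _
    have hI : |⟪m p.1, y⟫_ℝ| ≤ c * (Real.sqrt ‖p.1‖ * (Real.sqrt ‖p.2‖) ^ 3) * ‖y‖ :=
      (abs_real_inner_le_norm _ _).trans (mul_le_mul_of_nonneg_right hq (norm_nonneg _))
    have := young ν c (Real.sqrt ‖p.1‖) (Real.sqrt ‖p.2‖) ‖y‖ ‖e‖ _ hν U.c0.le
      (Real.sqrt_nonneg _) (Real.sqrt_nonneg _) (norm_nonneg _) _ hI hx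
    rw [Real.sq_sqrt (norm_nonneg _), Real.sq_sqrt (norm_nonneg _)] at this
    exact this
  have hbnd : ∀ s ∈ Icc r t, ∀ p ∈ W, ‖p.1‖ ≤ max c1 0 → ∀ e : K,
      2 * (⟪e, p.2⟫_ℝ - ν * ‖p.2‖ ^ 2 - ⟪m p.1, z s⟫_ℝ) + ν * ‖p.2‖ ^ 2 ≤
        2 / ν * ‖e‖ ^ 2 + K1 := by
    intro s hs p hp hpn e
    refine (hmW p hp (z s) e).trans ?_
    have h1 : ‖p.1‖ ^ 2 * ‖z s‖ ^ 4 ≤ (max c1 0) ^ 2 * (max Z 0) ^ 4 := by
      have := (hZ s (hs0 hs)).trans (le_max_left Z 0)
      gcongr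
    have h2 : 0 ≤ 14 * c ^ 4 / ν ^ 3 := by have := U.c0; positivity
    rw [hK1]
    have := mul_le_mul_of_nonneg_left h1 h2
    linarith
  -- integrability of the production
  have hmi : Integrable (fun s => ⟪m (u1 s), z s⟫_ℝ) (volume.restrict (Ioc r t)) := by
    have hconst : Integrable (fun _ : ℝ => K1) (volume.restrict (Ioc r t)) :=
      integrableOn_const (by simp)
    have hdom : Integrable (fun s => K1 + 2 * ν * ‖z1 s‖ ^ 2) (volume.restrict (Ioc r t)) :=
      hconst.add ((hz2.mono_measure hsub).const_mul _)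
    refine hdom.mono' hmm ?_
    filter_upwards [ae_mono hsub hc1, ae_mono hsub S.mem1, ae_restrict_mem measurableSet_Ioc]
      with s k1 k2 k3
    have hsI' := Ioc_subset_Icc_self k3
    have e1 := hmW _ k2 (z s) 0
    have e2 := hmW _ k2 (-z s) 0
    simp only [inner_zero_left, norm_zero, inner_neg_right, norm_neg] at e1 e2
    have h1 : ‖u1 s‖ ^ 2 * ‖z s‖ ^ 4 ≤ (max c1 0) ^ 2 * (max Z 0) ^ 4 := by
      have h3 := (hZ s (hs0 hsI')).trans (le_max_left Z 0)
      have h4 := k1.trans (le_max_left c1 0)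
      gcongr
    have h2 : 0 ≤ 14 * c ^ 4 / ν ^ 3 := by have := U.c0; positivity
    have h5 := mul_le_mul_of_nonneg_left h1 h2
    rw [← hK1] at h5
    rw [Real.norm_eq_abs, abs_le]
    have h6 : 0 ≤ K1 := by rw [hK1]; positivity
    have h7 : 0 ≤ ν * ‖z1 s‖ ^ 2 := by positivity
    constructor <;> nlinarith
  refine ⟨hmi, ?_⟩
  have hFzi : Integrable (fun s => ⟪F1 s, z1 s⟫_ℝ) (volume.restrict (Ioc r t)) :=
    int_inner (hF.memLp.mono_measure hsub) (S.z1m.mono_measure hsub)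
  have hfi : Integrable (fun s => 2 * (⟪F1 s, z1 s⟫_ℝ - ν * ‖z1 s‖ ^ 2 - ⟪m (u1 s), z s⟫_ℝ))
      (volume.restrict (Ioc r t)) :=
    ((hFzi.sub ((hz2.mono_measure hsub).const_mul ν)).sub hmi).const_mul 2
  set f : ℕ → ℝ → ℝ := fun n s => 2 * (⟪dF n s, dz n s⟫_ℝ - ν * ‖dz n s‖ ^ 2 -
    ⟪m (du n s), z s⟫_ℝ) with hf
  have cf : ∀ n, ContinuousOn (f n) (Icc r t) := fun n =>
    continuousOn_const.mul ((((cdF n).inner (cdz n)).sub (continuousOn_const.mul
      ((cdz n).norm.pow 2))).sub ((cm n).inner (hzc.mono hs0)))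
  have cg : ∀ n, ContinuousOn (fun s => 2 / ν * ‖dF n s‖ ^ 2 + K1 - f n s) (Icc r t) := fun n =>
    ((continuousOn_const.mul ((cdF n).norm.pow 2)).add continuousOn_const).sub (cf n)
  have hfn : ∀ n, ∫ s in r..t, f n s = ‖du n t‖ ^ 2 - ‖du n r‖ ^ 2 := by
    intro n
    have hn := hpos n
    have e1 := diff_eq Fr hν hT hF S hn hr hrt (hle n)
    have e0 : ∀ {Y : Type} [NormedAddCommGroup Y] [InnerProductSpace ℝ Y] (x : Y),
        ‖(h n)⁻¹ • x‖ ^ 2 = ((h n) ^ 2)⁻¹ * ‖x‖ ^ 2 := by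
      intro Y _ _ x
      rw [norm_smul, norm_inv, Real.norm_eq_abs, abs_of_pos hn, mul_pow, inv_pow]
    have e2 : ‖du n t‖ ^ 2 - ‖du n r‖ ^ 2 =
        ((h n) ^ 2)⁻¹ * (‖u (t + h n) - u t‖ ^ 2 - ‖u (r + h n) - u r‖ ^ 2) := by
      simp only [hdu, e0]
      ring
    rw [e2, e1, ← intervalIntegral.integral_const_mul]
    refine intervalIntegral.integral_congr fun s hs => ?_
    rw [uIcc_of_le hrt.le] at hs
    have hW : (u (s + h n) - u s, z (s + h n) - z s) ∈ W :=
      W.sub_mem (S.mem _ (hsI n s hs).2) (S.mem _ (hsI n s hs).1)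
    have e3 := m_smul Tr hW (h n)⁻¹
    simp only at e3
    simp only [hf, hdu, hdz, hdF, e0, e3, inner_smul_left, inner_smul_right, inv_pow]
    simp
    field_simp
  have hineq : ∀ n, ∫ s in Ioc r t, (2 / ν * ‖dF n s‖ ^ 2 + K1 - f n s) ≤
      2 / ν * (∫ s in r..(t + h n), ‖F1 s‖ ^ 2) + K1 * (t - r) - ‖du n t‖ ^ 2 + ‖du n r‖ ^ 2 := by
    intro n
    have hn := hpos n
    have i1 : IntervalIntegrable (fun s => 2 / ν * ‖dF n s‖ ^ 2) volume r t :=
      ContinuousOn.intervalIntegrable (by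
        rw [uIcc_of_le hrt.le]; exact continuousOn_const.mul ((cdF n).norm.pow 2))
    have i2 : IntervalIntegrable (f n) volume r t :=
      ContinuousOn.intervalIntegrable (by rw [uIcc_of_le hrt.le]; exact cf n)
    rw [← intervalIntegral.integral_of_le hrt.le, intervalIntegral.integral_sub
      (i1.add intervalIntegrable_const) i2, intervalIntegral.integral_add i1
      intervalIntegrable_const, intervalIntegral.integral_const_mul,
      intervalIntegral.integral_const, smul_eq_mul, hfn n]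
    have e3 := prim_shift' hF.memLp hF.prim hr hrt hn (hle n)
    have e4 : ∫ s in r..t, ‖dF n s‖ ^ 2 = ((h n) ^ 2)⁻¹ * ∫ s in r..t, ‖F (s + h n) - F s‖ ^ 2 := by
      rw [← intervalIntegral.integral_const_mul]
      refine intervalIntegral.integral_congr fun s _ => ?_
      simp only [hdF]
      rw [norm_smul, norm_inv, Real.norm_eq_abs, abs_of_pos hn, mul_pow, inv_pow]
    have e5 : ∫ s in r..t, ‖dF n s‖ ^ 2 ≤ ∫ s in r..(t + h n), ‖F1 s‖ ^ 2 := by
      rw [e4]
      rw [inv_mul_le_iff₀ (by positivity), mul_comm]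
      exact e3
    have e6 := mul_le_mul_of_nonneg_left e5 (by positivity : 0 ≤ 2 / ν)
    linarith
  have hlimF : Tendsto (fun n => ∫ s in r..(t + h n), ‖F1 s‖ ^ 2) atTop
      (𝓝 (∫ s in r..t, ‖F1 s‖ ^ 2)) := by
    have hi : IntegrableOn (fun s => ‖F1 s‖ ^ 2) (uIcc r T) volume := by
      rw [uIcc_of_le (hrt.le.trans htT.le), integrableOn_Icc_iff_integrableOn_Ioc]
      exact hF2.mono_measure (Measure.restrict_mono (Ioc_subset_Ioc_left hr) le_rfl)
    have hc := intervalIntegral.continuousOn_primitive_interval hi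
    rw [uIcc_of_le (hrt.le.trans htT.le)] at hc
    have h1 := hc t ⟨hrt.le, htT.le⟩
    have h2 : Tendsto (fun n => t + h n) atTop (𝓝[Icc r T] t) := by
      refine tendsto_nhdsWithin_iff.2 ⟨?_, Eventually.of_forall fun n => ⟨?_, hle n⟩⟩
      · simpa using hlim0.const_add t
      · linarith [hpos n]
    exact h1.tendsto.comp h2
  have hB := (((hlimF.const_mul (2 / ν)).add_const (K1 * (t - r))).sub hdt).add hdr
  have hgi : Integrable (fun s => 2 / ν * ‖F1 s‖ ^ 2 + K1 -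
      2 * (⟪F1 s, z1 s⟫_ℝ - ν * ‖z1 s‖ ^ 2 - ⟪m (u1 s), z s⟫_ℝ)) (volume.restrict (Ioc r t)) :=
    ((((hF2.mono_measure hsub).const_mul _).add (integrableOn_const (by simp)))).sub hfi
  have hfin := fatou (μ := volume.restrict (Ioc r t))
    (f := fun n s => 2 / ν * ‖dF n s‖ ^ 2 + K1 - f n s)
    (g := fun s => 2 / ν * ‖F1 s‖ ^ 2 + K1 -
      2 * (⟪F1 s, z1 s⟫_ℝ - ν * ‖z1 s‖ ^ 2 - ⟪m (u1 s), z s⟫_ℝ))
    (fun n => by
      filter_upwards [ae_restrict_mem measurableSet_Ioc] with s hs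
      have hs' := Ioc_subset_Icc_self hs
      have := hbnd s hs' _ (hWn n s hs') (hdub n s hs') (dF n s)
      simp only at this
      have h7 : 0 ≤ ν * ‖dz n s‖ ^ 2 := by positivity
      simp only [hf]
      linarith)
    (fun n => by
      have := (cg n).integrableOn_Icc (μ := volume)
      exact this.mono_set Ioc_subset_Icc_self)
    (by
      filter_upwards [hdzl, hdFl, hml] with s k1 k2 k3
      exact (((k2.norm.pow 2).const_mul (2 / ν)).add_const K1).sub
        ((((k2.inner k1).sub ((k1.norm.pow 2).const_mul ν)).sub k3).const_mul 2))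
    hgi hineq hB
  have e1 : ∫ s in Ioc r t, (2 / ν * ‖F1 s‖ ^ 2 + K1 -
      2 * (⟪F1 s, z1 s⟫_ℝ - ν * ‖z1 s‖ ^ 2 - ⟪m (u1 s), z s⟫_ℝ)) =
      2 / ν * (∫ s in r..t, ‖F1 s‖ ^ 2) + K1 * (t - r) -
        ∫ s in Ioc r t, 2 * (⟪F1 s, z1 s⟫_ℝ - ν * ‖z1 s‖ ^ 2 - ⟪m (u1 s), z s⟫_ℝ) := by
    have hK : Integrable (fun _ : ℝ => K1) (volume.restrict (Ioc r t)) :=
      integrableOn_const (by simp)
    have hi1 : Integrable (fun s => 2 / ν * ‖F1 s‖ ^ 2) (volume.restrict (Ioc r t)) :=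
      (hF2.mono_measure hsub).const_mul _
    have hi2 : Integrable (fun s => 2 / ν * ‖F1 s‖ ^ 2 + K1) (volume.restrict (Ioc r t)) :=
      hi1.add hK
    rw [integral_sub hi2 hfi, integral_add hi1 hK, integral_const_mul,
      intervalIntegral.integral_of_le hrt.le, integral_const]
    simp [hrt.le, mul_comm]
  rw [e1] at hfin
  linarith

end eqn

end Pool.Agent.TH791.NSA
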