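import Pool.Agent.H772R2.NS.Space3
import Pool.Agent.W52.TQ.Univ

/-! The Sobolev inequality on `H¹_{0,σ}` and the estimate of `∫ f |w|²`. -/

set_option autoImplicit false
set_option linter.all false

open MeasureTheory Set Filter Topology
open scoped InnerProductSpace ENNReal ContDiff NNReal

namespace Pool.Agent.TH791.NSA

open H772R2.NS
open Pool.Agent.W52.TQ (six_le)

theorem six_graph {Ω : Set E3} (hΩ : MeasurableSet Ω) {p : L2V Ω × L2M Ω} (hp : p ∈ graphW Ω) :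
    eLpNorm p.1 6 (volume.restrict Ω) ≤ (CS : ℝ≥0∞) * ‖p.2‖ₑ := by
  have hp' : p ∈ closure (preW Ω : Set (L2V Ω × L2M Ω)) := by
    have := hp
    unfold graphW at this
    rwa [← SetLike.mem_coe, Submodule.topologicalClosure_coe] at this
  obtain ⟨q, hq, hlim⟩ := mem_closure_iff_seq_limit.mp hp'
  have h1 : Tendsto (fun n => (q n).1) atTop (𝓝 p.1) := (continuous_fst.tendsto p).comp hlim
  have h2 : Tendsto (fun n => (q n).2) atTop (𝓝 p.2) := (continuous_snd.tendsto p).comp hlim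
  have hmeas : TendstoInMeasure (volume.restrict Ω) (fun n => ((q n).1 : E3 → E3)) atTop p.1 :=
    tendstoInMeasure_of_tendsto_Lp h1
  obtain ⟨ns, hns, hae⟩ := hmeas.exists_seq_tendsto_ae
  have hns' := hns.tendsto_atTop
  have hbd : ∀ n, eLpNorm (q n).1 6 (volume.restrict Ω) ≤ (CS : ℝ≥0∞) * ‖(q n).2‖ₑ := by
    intro n
    obtain ⟨φ, k1, k2, k3⟩ := hq n
    rw [Lp.enorm_def, eLpNorm_congr_ae k2, eLpNorm_congr_ae k3]
    exact six_le hΩ k1
  have hR : Tendsto (fun n => (CS : ℝ≥0∞) * ‖(q (ns n)).2‖ₑ) atTop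
      (𝓝 ((CS : ℝ≥0∞) * ‖p.2‖ₑ)) := by
    refine ENNReal.Tendsto.const_mul ((continuous_enorm.tendsto _).comp (h2.comp hns')) (Or.inr ?_)
    simp
  refine le_of_forall_gt (fun c hc => ?_)
  obtain ⟨c', hc'1, hc'2⟩ := exists_between hc
  refine lt_of_le_of_lt ?_ hc'2
  have hev : ∀ᶠ n in atTop, eLpNorm (q (ns n)).1 6 (volume.restrict Ω) ≤ c' := by
    filter_upwards [hR.eventually (gt_mem_nhds hc'1)] with n hn
    exact (hbd (ns n)).trans hn.le
  exact Lp.eLpNorm_le_of_ae_tendsto hev (fun n => Lp.aestronglyMeasurable _) hae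

section lint
variable {α : Type*} {mα : MeasurableSpace α} {μ : Measure α}

theorem rho_lint {f : α → ℝ} {w : α → E3} (hf : AEStronglyMeasurable f μ)
    (hw : AEStronglyMeasurable w μ) {r : ℝ≥0∞} (hr : 3 / 2 < r) :
    ∫⁻ x, ‖f x‖ₑ * ‖w x‖ₑ ^ 2 ∂μ ≤ eLpNorm f r μ *
      ((∫⁻ x, ‖w x‖ₑ ^ 2 ∂μ) ^ (1 - 3 / (2 * r.toReal)) *
        (∫⁻ x, ‖w x‖ₑ ^ 6 ∂μ) ^ (1 / (2 * r.toReal))) := by
  by_cases hrt : r = ⊤
  · subst hrt
    simp only [ENNReal.toReal_top, mul_zero, div_zero, sub_zero, ENNReal.rpow_one,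
      ENNReal.rpow_zero, mul_one]
    rw [eLpNorm_exponent_top, ← lintegral_const_mul'' _ (hw.enorm.pow_const 2)]
    refine lintegral_mono_ae ?_
    filter_upwards [enorm_ae_le_eLpNormEssSup f μ] with x hx
    gcongr
  · set q := r.toReal with hq
    have hq0 : 3 / 2 < q := by
      have h1 := (ENNReal.toReal_lt_toReal (ENNReal.div_ne_top (by norm_num) (by norm_num)) hrt).2 hr
      simpa using h1
    have hq1 : 0 < q := by linarith
    have e1 : 0 ≤ 1 - 3 / (2 * q) := by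
      rw [sub_nonneg, div_le_one (by positivity)]
      linarith
    have key := ENNReal.lintegral_prod_norm_pow_le (μ := μ) (Finset.univ : Finset (Fin 3))
      (f := ![fun x => ‖f x‖ₑ ^ q, fun x => ‖w x‖ₑ ^ 2, fun x => ‖w x‖ₑ ^ 6])
      (p := ![1 / q, 1 - 3 / (2 * q), 1 / (2 * q)]) (by
        intro i _
        fin_cases i
        · exact hf.enorm.pow_const q
        · exact hw.enorm.pow_const 2
        · exact hw.enorm.pow_const 6) (by
        simp [Fin.sum_univ_three]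
        field_simp
        ring) (by
        intro i _
        fin_cases i
        · simp [hq1.le]
        · simpa using e1
        · simp [hq1.le])
    simp only [Fin.prod_univ_three, Matrix.cons_val_zero, Matrix.cons_val_one,
      Matrix.cons_val_two, Matrix.head_cons, Matrix.tail_cons, Matrix.cons_val] at key
    have hn : eLpNorm f r μ = (∫⁻ x, ‖f x‖ₑ ^ q ∂μ) ^ (1 / q) := by
      rw [eLpNorm_eq_lintegral_rpow_enorm_toReal (by
        intro h0; rw [h0] at hr; simp at hr) hrt]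
    rw [hn, ← mul_assoc]
    refine le_trans (le_of_eq ?_) key
    refine lintegral_congr fun x => ?_
    have e2 : (‖f x‖ₑ ^ q) ^ (1 / q) = ‖f x‖ₑ := by
      rw [← ENNReal.rpow_mul, mul_one_div, div_self hq1.ne', ENNReal.rpow_one]
    have e3 : (‖w x‖ₑ ^ 2) ^ (1 - 3 / (2 * q)) * (‖w x‖ₑ ^ 6) ^ (1 / (2 * q)) = ‖w x‖ₑ ^ 2 := by
      rw [← ENNReal.rpow_natCast, ← ENNReal.rpow_natCast, ← ENNReal.rpow_mul,
        ← ENNReal.rpow_mul, ← ENNReal.rpow_add_of_nonneg _ _ (by positivity) (by positivity)]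
      congr 1
      field_simp
      push_cast
      ring
    rw [e2, mul_assoc, e3]

end lint

/-- the estimate of `∫ |f| |w|²` by Sobolev, interpolation and Young -/
theorem rho_real (r : ℝ≥0∞) (s ε : ℝ) (hr : 3 / 2 < r) (hs : 2 / s + 3 / r.toReal = 2)
    (hε : 0 < ε) : ∃ K : ℝ, 0 ≤ K ∧ ∀ Ω : Set E3, MeasurableSet Ω → ∀ p ∈ graphW Ω,
      ∀ f : E3 → ℝ, AEStronglyMeasurable f (volume.restrict Ω) → ∀ R : ℝ, 0 ≤ R →
      eLpNorm f r (volume.restrict Ω) ≤ ENNReal.ofReal R →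
      Integrable (fun x => |f x| * ‖p.1 x‖ ^ 2) (volume.restrict Ω) ∧
      ∫ x in Ω, |f x| * ‖p.1 x‖ ^ 2 ≤ ε * ‖p.2‖ ^ 2 + K * R ^ s * ‖p.1‖ ^ 2 := by
  set θ : ℝ := 3 / (2 * r.toReal) with hθ
  have hθ0 : 0 ≤ θ := by rw [hθ]; positivity
  have hθ1 : θ < 1 := by
    by_cases hrt : r = ⊤
    · rw [hθ, hrt]; simp
    · have h1 := (ENNReal.toReal_lt_toReal (ENNReal.div_ne_top (by norm_num) (by norm_num)) hrt).2 hr
      have h2 : 3 / 2 < r.toReal := by simpa using h1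
      rw [hθ, div_lt_one (by linarith)]
      linarith
  have hsθ : 1 / s = 1 - θ := by
    have e1 : 3 / r.toReal = 2 * θ := by
      rw [hθ]
      by_cases h0 : r.toReal = 0
      · simp [h0]
      · field_simp
    rw [e1] at hs
    have : 2 / s = 2 * (1 / s) := by ring
    linarith
  have hs0 : 0 < s := by
    have : 0 < 1 / s := by linarith
    exact one_div_pos.1 this
  have hsθ' : s * (1 - θ) = 1 := by rw [← hsθ]; field_simp
  set S2 : ℝ := (CS : ℝ) ^ 2 with hS2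
  have hS20 : 0 ≤ S2 := by positivity
  set K0 : ℝ := ((S2 / ε) ^ θ) ^ s with hK0
  have hK00 : 0 ≤ K0 := by positivity
  refine ⟨K0, hK00, ?_⟩
  intro Ω hΩ p hp f hf R hR hfR
  have h1 := rho_lint (μ := volume.restrict Ω) hf (Lp.aestronglyMeasurable p.1) hr
  have h2 : ∫⁻ x in Ω, ‖p.1 x‖ₑ ^ 2 = ENNReal.ofReal (‖p.1‖ ^ 2) := by
    rw [Pool.Agent.W52.TQ.eLp2_sq, ← Lp.enorm_def, ENNReal.ofReal_pow (norm_nonneg _), ofReal_norm]
  have h3 : ∫⁻ x in Ω, ‖p.1 x‖ₑ ^ 6 ≤ ENNReal.ofReal (S2 * ‖p.2‖ ^ 2) ^ 3 := by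
    rw [Pool.Agent.W52.TQ.eLp6_six]
    have h4 := six_graph hΩ hp
    have e1 : ENNReal.ofReal (S2 * ‖p.2‖ ^ 2) = ((CS : ℝ≥0∞) * ‖p.2‖ₑ) ^ 2 := by
      rw [hS2, ← mul_pow, ENNReal.ofReal_pow (by positivity), ENNReal.ofReal_mul (by positivity),
        ofReal_norm, ENNReal.ofReal_coe_nnreal]
    rw [e1, ← pow_mul]
    exact pow_le_pow_left' h4 6
  have hB : ∫⁻ x in Ω, ‖f x‖ₑ * ‖p.1 x‖ₑ ^ 2 ≤
      ENNReal.ofReal (R * ((‖p.1‖ ^ 2) ^ (1 - θ) * (S2 * ‖p.2‖ ^ 2) ^ θ)) := by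
    refine h1.trans ?_
    rw [h2, ENNReal.ofReal_mul hR, ENNReal.ofReal_mul (by positivity),
      ← ENNReal.ofReal_rpow_of_nonneg (by positivity) (by linarith : 0 ≤ 1 - θ),
      ← ENNReal.ofReal_rpow_of_nonneg (by positivity) hθ0]
    have h5 : (∫⁻ x in Ω, ‖p.1 x‖ₑ ^ 6) ^ (1 / (2 * r.toReal)) ≤
        ENNReal.ofReal (S2 * ‖p.2‖ ^ 2) ^ θ := by
      refine (ENNReal.rpow_le_rpow h3 (by positivity)).trans (le_of_eq ?_)
      rw [← ENNReal.rpow_natCast, ← ENNReal.rpow_mul]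
      congr 1
      rw [hθ]
      push_cast
      ring
    gcongr
  have hm : AEStronglyMeasurable (fun x => |f x| * ‖p.1 x‖ ^ 2) (volume.restrict Ω) :=
    (hf.norm).mul ((Lp.aestronglyMeasurable p.1).norm.pow 2)
  have he : ∀ x, ‖|f x| * ‖p.1 x‖ ^ 2‖ₑ = ‖f x‖ₑ * ‖p.1 x‖ₑ ^ 2 := by
    intro x
    rw [enorm_mul, enorm_pow, enorm_norm]
    congr 1
    rw [← Real.norm_eq_abs, enorm_norm]
  have hi : Integrable (fun x => |f x| * ‖p.1 x‖ ^ 2) (volume.restrict Ω) := by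
    refine ⟨hm, ?_⟩
    unfold HasFiniteIntegral
    simp only [he]
    exact hB.trans_lt ENNReal.ofReal_lt_top
  refine ⟨hi, ?_⟩
  have hI : ∫ x in Ω, |f x| * ‖p.1 x‖ ^ 2 ≤
      R * ((‖p.1‖ ^ 2) ^ (1 - θ) * (S2 * ‖p.2‖ ^ 2) ^ θ) := by
    rw [integral_eq_lintegral_of_nonneg_ae (Eventually.of_forall fun x => by positivity) hm]
    refine ENNReal.toReal_le_of_le_ofReal (by positivity) (le_trans (le_of_eq ?_) hB)
    refine lintegral_congr fun x => ?_
    rw [← he, Real.enorm_eq_ofReal (by positivity)]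
  refine hI.trans ?_
  set X : ℝ := ‖p.1‖ ^ 2 with hX
  set Y : ℝ := ‖p.2‖ ^ 2 with hY
  have hX0 : 0 ≤ X := by positivity
  have hY0 : 0 ≤ Y := by positivity
  have e1 : (S2 * Y) ^ θ = (S2 / ε) ^ θ * (ε * Y) ^ θ := by
    rw [← Real.mul_rpow (by positivity) (by positivity)]
    congr 1
    field_simp
  have e2 : (K0 * R ^ s * X) ^ (1 - θ) = (S2 / ε) ^ θ * R * X ^ (1 - θ) := by
    rw [Real.mul_rpow (by positivity) hX0, Real.mul_rpow hK00 (by positivity), hK0,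
      ← Real.rpow_mul (by positivity), ← Real.rpow_mul hR, hsθ', Real.rpow_one, Real.rpow_one]
  have e3 : R * (X ^ (1 - θ) * (S2 * Y) ^ θ) = (K0 * R ^ s * X) ^ (1 - θ) * (ε * Y) ^ θ := by
    rw [e1, e2]; ring
  rw [e3]
  have h6 := Real.geom_mean_le_arith_mean2_weighted (w₁ := 1 - θ) (w₂ := θ)
    (p₁ := K0 * R ^ s * X) (p₂ := ε * Y) (by linarith) hθ0 (by positivity) (by positivity)
    (by ring)
  refine h6.trans ?_
  have h7 : 0 ≤ K0 * R ^ s * X := by positivity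
  have h8 : 0 ≤ ε * Y := by positivity
  nlinarith

end Pool.Agent.TH791.NSA
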