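import Pool.Agent.W91.ES.Conc
import Pool.Agent.TH791.NSA.Sob

/-! The production of the energy of `∂ₜu` in a domain: null forms and the pointwise criterion. -/

set_option autoImplicit false
set_option linter.all false

open MeasureTheory Set Filter Topology
open scoped InnerProductSpace ENNReal ContDiff NNReal

namespace Pool.Agent.TH791.NSA

open H772R2.NS
open Pool.Agent.W91.ES (tn tn_apply norm_tn BL BL_coe inner_BL_zero BL_anti BL_diag preW_le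
  contDiff_d compact_d)

variable {Ω : Set E3}

/-! ### the trace of the square -/

/-- trace of the square -/
noncomputable def trS (A : M3) : ℝ := ∑ i, ∑ j, A (i, j) * A (j, i)

/-- transposition -/
noncomputable def trM : M3 →L[ℝ] M3 :=
  (LinearIsometryEquiv.piLpCongrLeft 2 ℝ ℝ (Equiv.prodComm (Fin 3) (Fin 3))).toContinuousLinearEquiv.toContinuousLinearMap

theorem trM_apply (A : M3) (i j : Fin 3) : trM A (i, j) = A (j, i) := by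
  simp [trM, LinearIsometryEquiv.piLpCongrLeft_apply, Equiv.piCongrLeft'_apply]

theorem trS_eq (A : M3) : ⟪A, trM A⟫_ℝ = trS A := by
  rw [inner_M3]
  simp only [trM_apply, trS]

theorem abs_trS_le (A : M3) : |trS A| ≤ ‖A‖ ^ 2 := by
  have h1 : ‖A‖ ^ 2 = ∑ i, ∑ j, (A (i, j) ^ 2 + A (j, i) ^ 2) / 2 := by
    have e1 : ∑ i, ∑ j, A (j, i) ^ 2 = ∑ i, ∑ j, A (i, j) ^ 2 := Finset.sum_comm
    have e2 : ∑ i, ∑ j, (A (i, j) ^ 2 + A (j, i) ^ 2) / 2 =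
        ((∑ i, ∑ j, A (i, j) ^ 2) + ∑ i, ∑ j, A (j, i) ^ 2) / 2 := by
      rw [← Finset.sum_add_distrib, Finset.sum_div]
      refine Finset.sum_congr rfl fun i _ => ?_
      rw [← Finset.sum_add_distrib, Finset.sum_div]
    rw [e2, e1, norm_sq_M3]
    ring
  rw [h1]
  unfold trS
  refine (Finset.abs_sum_le_sum_abs _ _).trans (Finset.sum_le_sum fun i _ => ?_)
  refine (Finset.abs_sum_le_sum_abs _ _).trans (Finset.sum_le_sum fun j _ => ?_)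
  rw [abs_le]
  constructor <;> nlinarith [sq_nonneg (A (i, j) - A (j, i)), sq_nonneg (A (i, j) + A (j, i))]

theorem symm_d {φ : E3 → E3} (h : ContDiff ℝ ∞ φ) (i j : Fin 3) (x : E3) :
    fderiv ℝ (fun y => fderiv ℝ (fun z => φ z j) y (ev i)) x (ev j) =
      fderiv ℝ (fun y => fderiv ℝ (fun z => φ z j) y (ev j)) x (ev i) := by
  have hc := contDiff_coord h j
  have hs : IsSymmSndFDerivAt ℝ (fun z => φ z j) x :=
    (hc.contDiffAt (x := x)).isSymmSndFDerivAt (by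
      simp only [minSmoothness_of_isRCLikeNormedField]
      exact WithTop.coe_le_coe.2 (le_top : (2 : ℕ∞) ≤ ⊤))
  have hd : DifferentiableAt ℝ (fderiv ℝ (fun z => φ z j)) x :=
    ((hc.fderiv_right (m := ∞) (by simp)).differentiable (by simp)) x
  have e : ∀ v w : E3, fderiv ℝ (fun y => fderiv ℝ (fun z => φ z j) y v) x w =
      fderiv ℝ (fderiv ℝ (fun z => φ z j)) x w v := by
    intro v w
    rw [fderiv_clm_apply hd (differentiableAt_const v)]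
    simp
  rw [e, e]
  exact hs _ _

theorem trS_test {φ : E3 → E3} (hφ : IsTest Ω φ) : ∫ x, trS (jac φ x) = 0 := by
  have hd : ∀ i j, Continuous (fun y => fderiv ℝ (fun z => φ z i) y (ev j)) := fun i j =>
    (contDiff_d hφ.smooth i j).continuous
  have hdd : ∀ i j k, Continuous
      (fun x => fderiv ℝ (fun y => fderiv ℝ (fun z => φ z i) y (ev j)) x (ev k)) := fun i j k =>
    ((contDiff_d hφ.smooth i j).continuous_fderiv (by simp)).clm_apply continuous_const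
  have hc : ∀ i, Continuous (fun x => φ x i) := fun i => (contDiff_coord hφ.smooth i).continuous
  have i1 : ∀ i j, Integrable (fun x => fderiv ℝ (fun z => φ z i) x (ev j) *
      fderiv ℝ (fun z => φ z j) x (ev i)) := fun i j =>
    ((hd i j).mul (hd j i)).integrable_of_hasCompactSupport ((compact_d hφ.compact i j).mul_right)
  have i2 : ∀ i j, Integrable (fun x => φ x i *
      fderiv ℝ (fun y => fderiv ℝ (fun z => φ z j) y (ev i)) x (ev j)) := fun i j =>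
    ((hc i).mul (hdd j i j)).integrable_of_hasCompactSupport
      ((hasCompactSupport_coord hφ.compact i).mul_right)
  have i3 : ∀ i j, Integrable (fun x => φ x i * fderiv ℝ (fun z => φ z j) x (ev i)) := fun i j =>
    ((hc i).mul (hd j i)).integrable_of_hasCompactSupport
      ((hasCompactSupport_coord hφ.compact i).mul_right)
  have hibp : ∀ i j, ∫ x, fderiv ℝ (fun z => φ z i) x (ev j) * fderiv ℝ (fun z => φ z j) x (ev i)
      = - ∫ x, φ x i * fderiv ℝ (fun y => fderiv ℝ (fun z => φ z j) y (ev i)) x (ev j) := by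
    intro i j
    rw [integral_mul_fderiv_eq_neg_fderiv_mul_of_integrable (i1 i j) (i2 i j) (i3 i j)]
    · ring
    · intro x _; exact ((contDiff_coord hφ.smooth i).differentiable (by simp)) x
    · intro x _; exact ((contDiff_d hφ.smooth j i).differentiable (by simp)) x
  have e1 : ∀ x, trS (jac φ x) = ∑ i, ∑ j, fderiv ℝ (fun z => φ z i) x (ev j) *
      fderiv ℝ (fun z => φ z j) x (ev i) := by
    intro x
    unfold trS
    refine Finset.sum_congr rfl fun i _ => Finset.sum_congr rfl fun j _ => ?_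
    rw [jac_apply, jac_apply, fderiv_coord hφ.smooth, fderiv_coord hφ.smooth]
  have hdiv : ∀ x i, ∑ j, fderiv ℝ (fun y => fderiv ℝ (fun z => φ z j) y (ev i)) x (ev j) = 0 := by
    intro x i
    rw [Finset.sum_congr rfl fun j _ => symm_d hφ.smooth i j x]
    have h1 : (fun y => ∑ j, fderiv ℝ (fun z => φ z j) y (ev j)) = fun _ => (0 : ℝ) := by
      funext y
      have := hφ.divfree y
      simp only [jac_apply] at this
      simp only [fderiv_coord hφ.smooth]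
      exact this
    have h2 : fderiv ℝ (fun y => ∑ j, fderiv ℝ (fun z => φ z j) y (ev j)) x = 0 := by
      rw [h1]; simp
    have h3 : fderiv ℝ (fun y => ∑ j, fderiv ℝ (fun z => φ z j) y (ev j)) x =
        ∑ j, fderiv ℝ (fun y => fderiv ℝ (fun z => φ z j) y (ev j)) x :=
      fderiv_fun_sum fun j _ => ((contDiff_d hφ.smooth j j).differentiable (by simp)) x
    rw [h3] at h2
    have h4 := congrArg (fun L : E3 →L[ℝ] ℝ => L (ev i)) h2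
    simpa using h4
  simp_rw [e1]
  rw [integral_finsetSum _ (fun i _ => integrable_finsetSum _ (fun j _ => i1 i j))]
  refine Finset.sum_eq_zero fun i _ => ?_
  rw [integral_finsetSum _ (fun j _ => i1 i j)]
  simp_rw [hibp]
  rw [Finset.sum_neg_distrib, ← integral_finsetSum _ (fun j _ => i2 i j)]
  simp_rw [← Finset.mul_sum, hdiv]
  simp

theorem trS_int (hΩ : MeasurableSet Ω) {p : L2V Ω × L2M Ω} (hp : p ∈ graphW Ω) :
    Integrable (fun x => trS (p.2 x)) (volume.restrict Ω) ∧ ∫ x in Ω, trS (p.2 x) = 0 := by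
  set L : L2M Ω →L[ℝ] L2M Ω := trM.compLpL 2 (volume.restrict Ω) with hL
  have hLc : ∀ A : L2M Ω, (fun x => ⟪A x, L A x⟫_ℝ) =ᵐ[volume.restrict Ω] fun x => trS (A x) := by
    intro A
    filter_upwards [ContinuousLinearMap.coeFn_compLpL trM A] with x hx
    rw [hL, hx, trS_eq]
  have hi : ∀ A : L2M Ω, ⟪A, L A⟫_ℝ = ∫ x in Ω, trS (A x) := by
    intro A
    rw [L2.inner_def]
    exact integral_congr_ae (hLc A)
  refine ⟨(L2.integrable_inner p.2 (L p.2)).congr (hLc p.2), ?_⟩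
  rw [← hi]
  refine graphW_induction (fun p => ⟪p.2, L p.2⟫_ℝ) (by
    have : Continuous fun p : L2V Ω × L2M Ω => ⟪p.2, L p.2⟫_ℝ := by fun_prop
    exact this.continuousOn) ?_ hp
  rintro p ⟨φ, h1, h2, h3⟩
  show ⟪p.2, L p.2⟫_ℝ = 0
  rw [hi]
  have e1 : ∫ x in Ω, trS (p.2 x) = ∫ x in Ω, trS (jac φ x) := by
    refine integral_congr_ae ?_
    filter_upwards [h3] with x hx
    rw [hx]
  rw [e1, setIntegral_eq_integral_of_forall_compl_eq_zero]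
  · exact trS_test h1
  · intro x hx
    rw [Pool.Agent.W52.TQ.jac_off h1 x hx]
    simp [trS]

/-! ### the production -/

theorem prod_eq (hΩ : MeasurableSet Ω) {p q : L2V Ω × L2M Ω} (hp : p ∈ graphW Ω)
    (hq : q ∈ graphW Ω) (θ lam : ℝ) :
    Integrable (fun x => ⟪p.2 x, tn (p.1 x) (q.1 x - θ • p.1 x)⟫_ℝ -
      lam * ⟪p.2 x, tn (q.1 x - θ • p.1 x) (p.1 x)⟫_ℝ) (volume.restrict Ω) ∧
    -⟪tensL p.1, q.2⟫_ℝ = ∫ x in Ω, (⟪p.2 x, tn (p.1 x) (q.1 x - θ • p.1 x)⟫_ℝ -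
      lam * ⟪p.2 x, tn (q.1 x - θ • p.1 x) (p.1 x)⟫_ℝ) := by
  have ha : q - θ • p ∈ graphW Ω := (graphW Ω).sub_mem hq ((graphW Ω).smul_mem θ hp)
  set a := q - θ • p with hadef
  have ha1 : (a.1 : E3 → E3) =ᵐ[volume.restrict Ω] fun x => q.1 x - θ • p.1 x := by
    have e : a.1 = q.1 - θ • p.1 := rfl
    rw [e]
    filter_upwards [Lp.coeFn_sub q.1 (θ • p.1), Lp.coeFn_smul θ p.1] with x h1 h2
    rw [h1, Pi.sub_apply, h2, Pi.smul_apply]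
  have c1 : (fun x => ⟪p.2 x, BL p.1 a.1 x⟫_ℝ) =ᵐ[volume.restrict Ω]
      fun x => ⟪p.2 x, tn (p.1 x) (q.1 x - θ • p.1 x)⟫_ℝ := by
    filter_upwards [BL_coe hΩ hp ha, ha1] with x h1 h2
    rw [h1, h2]
  have c2 : (fun x => ⟪p.2 x, BL a.1 p.1 x⟫_ℝ) =ᵐ[volume.restrict Ω]
      fun x => ⟪p.2 x, tn (q.1 x - θ • p.1 x) (p.1 x)⟫_ℝ := by
    filter_upwards [BL_coe hΩ ha hp, ha1] with x h1 h2
    rw [h1, h2]
  have i1 := (L2.integrable_inner p.2 (BL p.1 a.1)).congr c1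
  have i2 := (L2.integrable_inner p.2 (BL a.1 p.1)).congr c2
  refine ⟨i1.sub (i2.const_mul lam), ?_⟩
  rw [integral_sub i1 (i2.const_mul lam), integral_const_mul, ← integral_congr_ae c1,
    ← integral_congr_ae c2, ← L2.inner_def, ← L2.inner_def]
  have e1 := inner_BL_zero hΩ ha hp
  have e2 := BL_anti hΩ hp ha hp
  have e3 := inner_BL_zero hΩ hp hp
  have e4 : a.2 = q.2 - θ • p.2 := rfl
  rw [real_inner_comm (BL p.1 a.1) p.2, real_inner_comm (BL a.1 p.1) p.2, e2, e1, BL_diag, e4,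
    inner_sub_right, inner_smul_right]
  rw [BL_diag] at e3
  rw [e3]
  ring

theorem int_mul {E1 E2 : Type} [NormedAddCommGroup E1] [NormedAddCommGroup E2]
    {μ : Measure E3} (v : Lp E1 2 μ) (w : Lp E2 2 μ) :
    Integrable (fun x => ‖v x‖ * ‖w x‖) μ ∧ ∫ x, ‖v x‖ * ‖w x‖ ∂μ ≤ ‖v‖ * ‖w‖ := by
  have hv : MemLp (fun x => ‖v x‖) 2 μ := (Lp.memLp v).norm
  have hw : MemLp (fun x => ‖w x‖) 2 μ := (Lp.memLp w).norm
  refine ⟨hv.integrable_mul hw, ?_⟩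
  have e1 : ∫ x, ‖v x‖ * ‖w x‖ ∂μ = ⟪hv.toLp _, hw.toLp _⟫_ℝ := by
    rw [L2.inner_def]
    apply integral_congr_ae
    filter_upwards [hv.coeFn_toLp, hw.coeFn_toLp] with x a b
    rw [a, b]
    simp [mul_comm]
  rw [e1]
  refine (real_inner_le_norm _ _).trans (le_of_eq ?_)
  rw [Lp.norm_toLp, Lp.norm_toLp, Lp.norm_def, Lp.norm_def, eLpNorm_norm, eLpNorm_norm]

/-- the pointwise bound -/
theorem pt_bound {δ ν M θ lam κ ρ η g : ℝ} {A : M3} {w v : E3} (hδ : δ ≤ 1) (hν : 0 < ν)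
    (hM : 0 ≤ M) (hθ : |θ| ≤ M) (hlam : |lam| ≤ M) (hκ : |κ| ≤ 1)
    (hx : M < ‖w‖ → M < ‖v - θ • w‖ →
      ⟪A, tn w (v - θ • w)⟫_ℝ - lam * ⟪A, tn (v - θ • w) w⟫_ℝ ≤
        (1 - δ) * ν * (‖A‖ ^ 2 + κ * trS A) + (ρ + η) * ‖w‖ ^ 2 + g * ‖v‖ * ‖w‖ ^ 2) :
    ⟪A, tn w (v - θ • w)⟫_ℝ - lam * ⟪A, tn (v - θ • w) w⟫_ℝ ≤
      (1 - δ) * ν * (‖A‖ ^ 2 + κ * trS A) + |ρ| * ‖w‖ ^ 2 + |(|g| * ‖v‖)| * ‖w‖ ^ 2 +
      |η| * ‖w‖ ^ 2 + (1 + M) * M * ((1 + M) * (‖A‖ * ‖w‖) + ‖A‖ * ‖v‖) := by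
  have hna : ‖v - θ • w‖ ≤ ‖v‖ + M * ‖w‖ := by
    refine (norm_sub_le _ _).trans ?_
    rw [norm_smul, Real.norm_eq_abs]
    gcongr
  generalize v - θ • w = a at hx hna ⊢
  have hP : 0 ≤ ‖A‖ ^ 2 + κ * trS A := by
    have h1 := abs_trS_le A
    have h2 : |κ * trS A| ≤ ‖A‖ ^ 2 := by
      rw [abs_mul]
      calc |κ| * |trS A| ≤ 1 * ‖A‖ ^ 2 := by gcongr
        _ = ‖A‖ ^ 2 := one_mul _
    have := (abs_le.1 h2).1
    linarith
  have hP' : 0 ≤ (1 - δ) * ν * (‖A‖ ^ 2 + κ * trS A) := by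
    have : 0 ≤ 1 - δ := by linarith
    positivity
  have hr0 : 0 ≤ |ρ| * ‖w‖ ^ 2 := by positivity
  have hh0 : 0 ≤ |η| * ‖w‖ ^ 2 := by positivity
  have hg0 : 0 ≤ |(|g| * ‖v‖)| * ‖w‖ ^ 2 := by positivity
  have hl0 : 0 ≤ (1 + M) * M * ((1 + M) * (‖A‖ * ‖w‖) + ‖A‖ * ‖v‖) := by positivity
  by_cases hc : M < ‖w‖ ∧ M < ‖a‖
  · have h1 := hx hc.1 hc.2
    have h2 : ρ * ‖w‖ ^ 2 ≤ |ρ| * ‖w‖ ^ 2 := by
      gcongr
      exact le_abs_self _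
    have h2' : η * ‖w‖ ^ 2 ≤ |η| * ‖w‖ ^ 2 := by
      gcongr
      exact le_abs_self _
    have h3 : g * ‖v‖ * ‖w‖ ^ 2 ≤ |(|g| * ‖v‖)| * ‖w‖ ^ 2 := by
      rw [abs_mul, abs_abs, abs_norm]
      gcongr
      exact le_abs_self _
    linarith
  · have nw := norm_nonneg w
    have na := norm_nonneg a
    have nv := norm_nonneg v
    have hmin : ‖w‖ * ‖a‖ ≤ M * ((1 + M) * ‖w‖ + ‖v‖) := by
      rw [not_and_or, not_lt, not_lt] at hc
      rcases hc with hc | hc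
      · calc ‖w‖ * ‖a‖ ≤ M * (‖v‖ + M * ‖w‖) := by gcongr
          _ ≤ M * ((1 + M) * ‖w‖ + ‖v‖) := by
            refine mul_le_mul_of_nonneg_left ?_ hM
            nlinarith
      · calc ‖w‖ * ‖a‖ ≤ ‖w‖ * M := by gcongr
          _ = M * ‖w‖ := mul_comm _ _
          _ ≤ M * ((1 + M) * ‖w‖ + ‖v‖) := by
            refine mul_le_mul_of_nonneg_left ?_ hM
            nlinarith [mul_nonneg hM nw]
    have h1 : |⟪A, tn w a⟫_ℝ| ≤ ‖A‖ * (‖w‖ * ‖a‖) := by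
      refine (abs_real_inner_le_norm _ _).trans ?_
      rw [norm_tn]
    have h2 : |⟪A, tn a w⟫_ℝ| ≤ ‖A‖ * (‖w‖ * ‖a‖) := by
      refine (abs_real_inner_le_norm _ _).trans ?_
      rw [norm_tn, mul_comm ‖a‖]
    have h3 : |lam * ⟪A, tn a w⟫_ℝ| ≤ M * (‖A‖ * (‖w‖ * ‖a‖)) := by
      rw [abs_mul]
      gcongr
    have h4 := (abs_le.1 h1).2
    have h5 := (abs_le.1 h3).1
    have h6 : (1 + M) * (‖A‖ * (‖w‖ * ‖a‖)) ≤ (1 + M) * (‖A‖ * (M * ((1 + M) * ‖w‖ + ‖v‖))) := by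
      gcongr
    have h7 : (1 + M) * (‖A‖ * (M * ((1 + M) * ‖w‖ + ‖v‖))) =
        (1 + M) * M * ((1 + M) * (‖A‖ * ‖w‖) + ‖A‖ * ‖v‖) := by ring
    linarith

/-- the pointwise criterion bounds the production -/
theorem prod_le (hΩ : MeasurableSet Ω) {p q : L2V Ω × L2M Ω} (hp : p ∈ graphW Ω)
    (hq : q ∈ graphW Ω) {δ ν M θ lam κ : ℝ} {ρ η g : E3 → ℝ} (hδ : δ ≤ 1) (hν : 0 < ν) (hM : 0 ≤ M)
    (hθ : |θ| ≤ M) (hlam : |lam| ≤ M) (hκ : |κ| ≤ 1)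
    (i1 : Integrable (fun x => |ρ x| * ‖p.1 x‖ ^ 2) (volume.restrict Ω))
    (i2 : Integrable (fun x => |(|g x| * ‖q.1 x‖)| * ‖p.1 x‖ ^ 2) (volume.restrict Ω))
    (i3 : Integrable (fun x => |η x| * ‖p.1 x‖ ^ 2) (volume.restrict Ω))
    (h : ∀ᵐ x ∂(volume.restrict Ω), M < ‖p.1 x‖ → M < ‖q.1 x - θ • p.1 x‖ →
      ⟪p.2 x, tn (p.1 x) (q.1 x - θ • p.1 x)⟫_ℝ - lam * ⟪p.2 x, tn (q.1 x - θ • p.1 x) (p.1 x)⟫_ℝ
        ≤ (1 - δ) * ν * (‖p.2 x‖ ^ 2 + κ * trS (p.2 x)) + (ρ x + η x) * ‖p.1 x‖ ^ 2 +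
          g x * ‖q.1 x‖ * ‖p.1 x‖ ^ 2) :
    -⟪tensL p.1, q.2⟫_ℝ ≤ (1 - δ) * ν * ‖p.2‖ ^ 2 + (∫ x in Ω, |ρ x| * ‖p.1 x‖ ^ 2) +
      (∫ x in Ω, |(|g x| * ‖q.1 x‖)| * ‖p.1 x‖ ^ 2) + (∫ x in Ω, |η x| * ‖p.1 x‖ ^ 2) +
      (1 + M) * M * ((1 + M) * (‖p.2‖ * ‖p.1‖) + ‖p.2‖ * ‖q.1‖) := by
  obtain ⟨i0, e0⟩ := prod_eq hΩ hp hq θ lam
  obtain ⟨it, et⟩ := trS_int hΩ hp
  obtain ⟨iw, ew⟩ := int_mul (μ := volume.restrict Ω) p.2 p.1
  obtain ⟨iu, eu⟩ := int_mul (μ := volume.restrict Ω) p.2 q.1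
  have in2 : Integrable (fun x => ‖p.2 x‖ ^ 2) (volume.restrict Ω) :=
    (memLp_two_iff_integrable_sq_norm (Lp.aestronglyMeasurable p.2)).mp (Lp.memLp p.2)
  have en2 : ∫ x in Ω, ‖p.2 x‖ ^ 2 = ‖p.2‖ ^ 2 := by
    have h1 : ‖p.2‖ ^ 2 = ⟪p.2, p.2⟫_ℝ := (real_inner_self_eq_norm_sq _).symm
    rw [h1, L2.inner_def]
    refine integral_congr_ae (Eventually.of_forall fun x => ?_)
    exact (real_inner_self_eq_norm_sq _).symm
  rw [e0]
  have hR : Integrable (fun x => (1 - δ) * ν * (‖p.2 x‖ ^ 2 + κ * trS (p.2 x)) +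
      |ρ x| * ‖p.1 x‖ ^ 2 + |(|g x| * ‖q.1 x‖)| * ‖p.1 x‖ ^ 2 + |η x| * ‖p.1 x‖ ^ 2 +
      (1 + M) * M * ((1 + M) * (‖p.2 x‖ * ‖p.1 x‖) + ‖p.2 x‖ * ‖q.1 x‖)) (volume.restrict Ω) :=
    (((((in2.add (it.const_mul κ)).const_mul ((1 - δ) * ν)).add i1).add i2).add i3).add
      (((iw.const_mul (1 + M)).add iu).const_mul ((1 + M) * M))
  refine (integral_mono_ae i0 hR ?_).trans ?_
  · filter_upwards [h] with x hx
    exact pt_bound hδ hν hM hθ hlam hκ hx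
  · have k1 : Integrable (fun x => κ * trS (p.2 x)) (volume.restrict Ω) := it.const_mul κ
    have k2 : Integrable (fun x => ‖p.2 x‖ ^ 2 + κ * trS (p.2 x)) (volume.restrict Ω) :=
      in2.add k1
    have k3 : Integrable (fun x => (1 - δ) * ν * (‖p.2 x‖ ^ 2 + κ * trS (p.2 x)))
        (volume.restrict Ω) := k2.const_mul _
    have k4 : Integrable (fun x => (1 - δ) * ν * (‖p.2 x‖ ^ 2 + κ * trS (p.2 x)) +
        |ρ x| * ‖p.1 x‖ ^ 2) (volume.restrict Ω) := k3.add i1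
    have k5 : Integrable (fun x => (1 - δ) * ν * (‖p.2 x‖ ^ 2 + κ * trS (p.2 x)) +
        |ρ x| * ‖p.1 x‖ ^ 2 + |(|g x| * ‖q.1 x‖)| * ‖p.1 x‖ ^ 2) (volume.restrict Ω) := k4.add i2
    have k5' : Integrable (fun x => (1 - δ) * ν * (‖p.2 x‖ ^ 2 + κ * trS (p.2 x)) +
        |ρ x| * ‖p.1 x‖ ^ 2 + |(|g x| * ‖q.1 x‖)| * ‖p.1 x‖ ^ 2 + |η x| * ‖p.1 x‖ ^ 2)
        (volume.restrict Ω) := k5.add i3
    have k6 : Integrable (fun x => (1 + M) * (‖p.2 x‖ * ‖p.1 x‖)) (volume.restrict Ω) :=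
      iw.const_mul _
    have k7 : Integrable (fun x => (1 + M) * (‖p.2 x‖ * ‖p.1 x‖) + ‖p.2 x‖ * ‖q.1 x‖)
        (volume.restrict Ω) := k6.add iu
    have k8 : Integrable (fun x => (1 + M) * M * ((1 + M) * (‖p.2 x‖ * ‖p.1 x‖) +
        ‖p.2 x‖ * ‖q.1 x‖)) (volume.restrict Ω) := k7.const_mul _
    rw [integral_add k5' k8, integral_add k5 i3, integral_add k4 i2, integral_add k3 i1,
      integral_const_mul ((1 - δ) * ν), integral_add in2 k1, integral_const_mul κ, et, en2,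
      integral_const_mul ((1 + M) * M), integral_add k6 iu, integral_const_mul (1 + M)]
    have h8 : (1 + M) * (∫ x in Ω, ‖p.2 x‖ * ‖p.1 x‖) + ∫ x in Ω, ‖p.2 x‖ * ‖q.1 x‖ ≤
        (1 + M) * (‖p.2‖ * ‖p.1‖) + ‖p.2‖ * ‖q.1‖ := by gcongr
    have h9 := mul_le_mul_of_nonneg_left h8 (by positivity : 0 ≤ (1 + M) * M)
    linarith

/-- the bound for the production -/
theorem prod_fin (ν δ M : ℝ) (r b : ℝ≥0∞) (s a E : ℝ) (hν : 0 < ν) (hδ : 0 < δ) (hδ1 : δ ≤ 1)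
    (hM : 0 ≤ M) (hr : 3 / 2 < r) (hs : 2 / s + 3 / r.toReal = 2) (hb : 6 < b)
    (ha : 2 / a + 3 / b.toReal = 1 / 2) (hE : 0 ≤ E) : ∃ K : ℝ, 0 ≤ K ∧
    ∀ Ω : Set E3, MeasurableSet Ω → ∀ p ∈ graphW Ω, ∀ q ∈ graphW Ω, ‖q.1‖ ≤ E →
    ∀ (θ lam κ : ℝ) (ρ η g : E3 → ℝ) (P Q L : ℝ), |θ| ≤ M → |lam| ≤ M → |κ| ≤ 1 →
      AEStronglyMeasurable ρ (volume.restrict Ω) → AEStronglyMeasurable g (volume.restrict Ω) →
      0 ≤ P → 0 ≤ Q → 0 ≤ L →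
      eLpNorm ρ r (volume.restrict Ω) ≤ ENNReal.ofReal P →
      eLpNorm g b (volume.restrict Ω) ≤ ENNReal.ofReal Q →
      Integrable (fun x => |η x| * ‖p.1 x‖ ^ 2) (volume.restrict Ω) →
      (∫ x in Ω, |η x| * ‖p.1 x‖ ^ 2) ≤ δ / 2 * ν * ‖p.2‖ ^ 2 + L * ‖p.1‖ ^ 2 →
      (∀ᵐ x ∂(volume.restrict Ω), M < ‖p.1 x‖ → M < ‖q.1 x - θ • p.1 x‖ →
        ⟪p.2 x, tn (p.1 x) (q.1 x - θ • p.1 x)⟫_ℝ -
          lam * ⟪p.2 x, tn (q.1 x - θ • p.1 x) (p.1 x)⟫_ℝ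
        ≤ (1 - δ) * ν * (‖p.2 x‖ ^ 2 + κ * trS (p.2 x)) + (ρ x + η x) * ‖p.1 x‖ ^ 2 +
          g x * ‖q.1 x‖ * ‖p.1 x‖ ^ 2) →
      -⟪tensL p.1, q.2⟫_ℝ ≤ (1 - δ / 4) * ν * ‖p.2‖ ^ 2 +
        K * (1 + (P ^ s + Q ^ a + L)) * (‖p.1‖ ^ 2 + 1) := by
  have hε : 0 < δ * ν / 12 := by positivity
  -- the exponent of the product
  set β : ℝ≥0∞ := (b⁻¹ + 2⁻¹)⁻¹ with hβ
  have hb0 : b ≠ 0 := by intro h0; rw [h0] at hb; simp at hb
  have hβr : β.toReal = (b.toReal⁻¹ + 2⁻¹)⁻¹ := by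
    rw [hβ, ENNReal.toReal_inv, ENNReal.toReal_add (by simp [hb0]) (by simp), ENNReal.toReal_inv]
    simp
  have hbi : b.toReal⁻¹ < 1 / 6 := by
    by_cases hbt : b = ⊤
    · rw [hbt]; simp
    · have h1 := (ENNReal.toReal_lt_toReal (by norm_num) hbt).2 hb
      have h2 : 6 < b.toReal := by simpa using h1
      rw [one_div]
      exact inv_strictAnti₀ (by norm_num) h2
  have hbi0 : 0 ≤ b.toReal⁻¹ := by positivity
  have hβt : β ≠ ⊤ := by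
    rw [hβ]
    simp
  have hβ1 : 3 / 2 < β := by
    rw [← ENNReal.toReal_lt_toReal (by
      exact ENNReal.div_ne_top (by norm_num) (by norm_num)) hβt, hβr]
    have h1 : b.toReal⁻¹ + 2⁻¹ < 2 / 3 := by linarith
    have h2 := inv_strictAnti₀ (by positivity : 0 < b.toReal⁻¹ + 2⁻¹) h1
    have h3 : ((3 : ℝ≥0∞) / 2).toReal = (2 / 3 : ℝ)⁻¹ := by
      rw [ENNReal.toReal_div]; norm_num
    rw [h3]
    exact h2
  have hβ2 : 2 / a + 3 / β.toReal = 2 := by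
    have h1 : 3 / β.toReal = 3 / b.toReal + 3 / 2 := by
      rw [hβr, div_inv_eq_mul]
      ring
    rw [h1]
    linarith
  obtain ⟨K1, hK1, h1⟩ := rho_real r s (δ * ν / 12) hr hs hε
  obtain ⟨K2, hK2, h2⟩ := rho_real β a (δ * ν / 12) hβ1 hβ2 hε
  set K3 : ℝ := 3 / (δ * ν) * ((1 + M) * M) ^ 2 * (2 * ((1 + M) ^ 2 + E ^ 2)) with hK3
  have hK30 : 0 ≤ K3 := by positivity
  refine ⟨K1 + K2 * E ^ a + K3 + 1, by positivity, ?_⟩
  intro Ω hΩ p hp q hq hqE θ lam κ ρ η g P Q L hθ hlam hκ hρm hgm hP hQ hL hρ hg hη1 hη2 h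
  obtain ⟨j1, j2⟩ := h1 Ω hΩ p hp ρ hρm P hP hρ
  have hgu : AEStronglyMeasurable (fun x => |g x| * ‖q.1 x‖) (volume.restrict Ω) :=
    hgm.norm.mul (Lp.aestronglyMeasurable q.1).norm
  have hHT : ENNReal.HolderTriple b 2 β := ⟨by rw [hβ, inv_inv]⟩
  have hguN : eLpNorm (fun x => |g x| * ‖q.1 x‖) β (volume.restrict Ω) ≤
      ENNReal.ofReal (Q * E) := by
    have h3 := eLpNorm_le_eLpNorm_mul_eLpNorm'_of_norm (p := b) (q := 2) (r := β) hgm.norm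
      (Lp.aestronglyMeasurable q.1).norm (fun a b => a * b) 1 (Eventually.of_forall (fun x => by
        rw [norm_mul]; simp)) (μ := volume.restrict Ω)
    rw [ENNReal.coe_one, one_mul] at h3
    have e1 : eLpNorm (fun x => ‖g x‖) b (volume.restrict Ω) = eLpNorm g b (volume.restrict Ω) :=
      eLpNorm_norm _
    have e2 : eLpNorm (fun x => ‖q.1 x‖) 2 (volume.restrict Ω) = ‖q.1‖ₑ := by
      rw [eLpNorm_norm, Lp.enorm_def]
    rw [e1, e2] at h3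
    refine h3.trans ?_
    rw [ENNReal.ofReal_mul hQ]
    refine mul_le_mul' hg ?_
    rw [← ofReal_norm]
    exact ENNReal.ofReal_le_ofReal hqE
  obtain ⟨j3, j4⟩ := h2 Ω hΩ p hp (fun x => |g x| * ‖q.1 x‖) hgu (Q * E) (by positivity) hguN
  have key := prod_le hΩ hp hq hδ1 hν hM hθ hlam hκ j1 j3 hη1 h
  refine key.trans ?_
  rw [Real.mul_rpow hQ hE] at j4
  set X : ℝ := ‖p.1‖ with hX
  set Y : ℝ := ‖p.2‖ with hY
  have hX0 : 0 ≤ X := norm_nonneg _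
  have hY0 : 0 ≤ Y := norm_nonneg _
  have hPs : 0 ≤ P ^ s := by positivity
  have hQa : 0 ≤ Q ^ a := by positivity
  have hEa : 0 ≤ E ^ a := by positivity
  have e3 : (1 + M) * M * ((1 + M) * (Y * X) + Y * ‖q.1‖) ≤ δ * ν / 12 * Y ^ 2 + K3 * (X ^ 2 + 1) := by
    set N : ℝ := (1 + M) * M with hN
    have hN0 : 0 ≤ N := by positivity
    have e4 : N * ((1 + M) * (Y * X) + Y * ‖q.1‖) ≤ N * (Y * ((1 + M) * X + E)) := by
      have : Y * ‖q.1‖ ≤ Y * E := by gcongr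
      have h5 : (1 + M) * (Y * X) + Y * ‖q.1‖ ≤ Y * ((1 + M) * X + E) := by nlinarith
      gcongr
    have e5 : N * (Y * ((1 + M) * X + E)) ≤ δ * ν / 12 * Y ^ 2 +
        3 / (δ * ν) * N ^ 2 * ((1 + M) * X + E) ^ 2 := by
      have e6 : δ * ν / 12 * Y ^ 2 + 3 / (δ * ν) * N ^ 2 * ((1 + M) * X + E) ^ 2 -
          N * (Y * ((1 + M) * X + E)) =
          3 / (δ * ν) * (N * ((1 + M) * X + E) - δ * ν / 6 * Y) ^ 2 := by
        field_simp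
        ring
      have : 0 ≤ 3 / (δ * ν) * (N * ((1 + M) * X + E) - δ * ν / 6 * Y) ^ 2 := by positivity
      linarith
    have e7 : ((1 + M) * X + E) ^ 2 ≤ 2 * ((1 + M) ^ 2 + E ^ 2) * (X ^ 2 + 1) := by
      nlinarith [sq_nonneg ((1 + M) * X - E), mul_nonneg (sq_nonneg (1 + M)) (sq_nonneg X),
        mul_nonneg (sq_nonneg E) (sq_nonneg X), sq_nonneg (1 + M), sq_nonneg E]
    have e8 : 3 / (δ * ν) * N ^ 2 * ((1 + M) * X + E) ^ 2 ≤
        3 / (δ * ν) * N ^ 2 * (2 * ((1 + M) ^ 2 + E ^ 2) * (X ^ 2 + 1)) := by gcongr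
    have e9 : 3 / (δ * ν) * N ^ 2 * (2 * ((1 + M) ^ 2 + E ^ 2) * (X ^ 2 + 1)) =
        K3 * (X ^ 2 + 1) := by rw [hK3]; ring
    linarith
  have f1 : K1 * P ^ s * X ^ 2 ≤ K1 * (1 + (P ^ s + Q ^ a + L)) * (X ^ 2 + 1) := by
    have : P ^ s ≤ 1 + (P ^ s + Q ^ a + L) := by linarith
    gcongr
    linarith
  have f2 : K2 * (Q ^ a * E ^ a) * X ^ 2 ≤
      K2 * E ^ a * (1 + (P ^ s + Q ^ a + L)) * (X ^ 2 + 1) := by
    have : Q ^ a ≤ 1 + (P ^ s + Q ^ a + L) := by linarith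
    calc K2 * (Q ^ a * E ^ a) * X ^ 2 = K2 * E ^ a * Q ^ a * X ^ 2 := by ring
      _ ≤ K2 * E ^ a * (1 + (P ^ s + Q ^ a + L)) * (X ^ 2 + 1) := by
        gcongr
        linarith
  have f3 : K3 * (X ^ 2 + 1) ≤ K3 * (1 + (P ^ s + Q ^ a + L)) * (X ^ 2 + 1) := by
    have : 1 ≤ 1 + (P ^ s + Q ^ a + L) := by linarith
    calc K3 * (X ^ 2 + 1) = K3 * 1 * (X ^ 2 + 1) := by ring
      _ ≤ _ := by gcongr
  have f5 : L * X ^ 2 ≤ 1 * (1 + (P ^ s + Q ^ a + L)) * (X ^ 2 + 1) := by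
    have h1 : L ≤ 1 + (P ^ s + Q ^ a + L) := by linarith
    have h2 : X ^ 2 ≤ X ^ 2 + 1 := by linarith
    rw [one_mul]
    exact mul_le_mul h1 h2 (by positivity) (by positivity)
  have f4 : (K1 + K2 * E ^ a + K3 + 1) * (1 + (P ^ s + Q ^ a + L)) * (X ^ 2 + 1) =
      K1 * (1 + (P ^ s + Q ^ a + L)) * (X ^ 2 + 1) +
      K2 * E ^ a * (1 + (P ^ s + Q ^ a + L)) * (X ^ 2 + 1) +
      K3 * (1 + (P ^ s + Q ^ a + L)) * (X ^ 2 + 1) +
      1 * (1 + (P ^ s + Q ^ a + L)) * (X ^ 2 + 1) := by ring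
  rw [f4]
  linarith

end Pool.Agent.TH791.NSA
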