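import Pool.Agent.TH791.NSA.Abs

/-! Growth of `∂ₜu`: the exponential bound. -/

set_option autoImplicit false
set_option linter.all false

open MeasureTheory Set Filter Topology Metric
open scoped InnerProductSpace NNReal ENNReal

namespace Pool.Agent.TH791.NSA

open Pool.Agent.W795.TQ
open Pool.Agent.W795.ES
open H772R2.NSR (Frame prim_cont memLp_ii ae_deriv_of_prim prim_shift)
open H772R2.NSG (St by_parts ii_of_int int_inner)
open Pool.Agent.W918.ES (gronL1)

/-- Gronwall for a bounded measurable function and an almost everywhere inequality -/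
theorem gron_ae {a b k c : ℝ} (hab : a ≤ b) {y β : ℝ → ℝ}
    (hym : AEStronglyMeasurable y (volume.restrict (Ioc a b)))
    (hyb : ∀ᵐ s ∂(volume.restrict (Ioc a b)), ‖y s‖ ≤ c)
    (hβ : IntervalIntegrable β volume a b) (hβ0 : ∀ s, 0 ≤ β s)
    (h : ∀ᵐ t ∂(volume.restrict (Ioc a b)), y t ≤ k + ∫ s in a..t, β s * y s) :
    ∀ᵐ t ∂(volume.restrict (Ioc a b)), y t ≤ k * Real.exp (∫ s in a..t, β s) := by
  have hβ' : Integrable β (volume.restrict (Ioc a b)) :=
    (intervalIntegrable_iff_integrableOn_Ioc_of_le hab).1 hβ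
  have hi : Integrable (fun s => β s * y s) (volume.restrict (Ioc a b)) :=
    hβ'.mul_bdd hym hyb
  set Y : ℝ → ℝ := fun t => k + ∫ s in a..t, β s * y s with hY
  have hYc : ContinuousOn Y (Icc a b) := by
    have h1 : IntegrableOn (fun s => β s * y s) (uIcc a b) volume := by
      rw [uIcc_of_le hab, integrableOn_Icc_iff_integrableOn_Ioc]
      exact hi
    have h2 := intervalIntegral.continuousOn_primitive_interval h1
    rw [uIcc_of_le hab] at h2
    exact continuousOn_const.add h2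
  have hYi : IntervalIntegrable (fun s => β s * Y s) volume a b := by
    apply hβ.mul_continuousOn
    rwa [uIcc_of_le hab]
  have hYi' : Integrable (fun s => β s * Y s) (volume.restrict (Ioc a b)) :=
    (intervalIntegrable_iff_integrableOn_Ioc_of_le hab).1 hYi
  have key : ∀ t ∈ Icc a b, Y t ≤ k + ∫ s in a..t, β s * Y s := by
    intro t ht
    have h1 : ∫ s in a..t, β s * y s ≤ ∫ s in a..t, β s * Y s := by
      rw [intervalIntegral.integral_of_le ht.1, intervalIntegral.integral_of_le ht.1]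
      have hs : (volume.restrict (Ioc a t) : Measure ℝ) ≤ volume.restrict (Ioc a b) :=
        Measure.restrict_mono (Ioc_subset_Ioc_right ht.2) le_rfl
      refine integral_mono_ae (hi.mono_measure hs) (hYi'.mono_measure hs) ?_
      filter_upwards [ae_mono hs h] with s k1
      exact mul_le_mul_of_nonneg_left k1 (hβ0 s)
    show k + _ ≤ _
    linarith
  filter_upwards [h, ae_restrict_mem measurableSet_Ioc] with t k1 k2
  refine k1.trans ?_
  exact gronL1 k2.1.le (hYc.mono (Icc_subset_Icc le_rfl k2.2)) (hβ.mono_set (by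
    rw [uIcc_of_le k2.1.le, uIcc_of_le hab]; exact Icc_subset_Icc le_rfl k2.2)) hβ0
    (fun s hs => key s ⟨hs.1, hs.2.trans k2.2⟩)

section eqn

variable {H K : Type} [NormedAddCommGroup H] [InnerProductSpace ℝ H] [CompleteSpace H]
  [NormedAddCommGroup K] [InnerProductSpace ℝ K] [CompleteSpace K]
  {W : Submodule ℝ (H × K)} {m : H → K} {B : H → H → K} {C c ν T δ G : ℝ} {F F1 : ℝ → K}
  {u u1 : ℝ → H} {z z1 : ℝ → K} {Λ : ℝ → ℝ}

theorem grow (Fr : Frame W m C) (U : Univ W m c) (Tr : Tri W m B) (hν : 0 < ν) (hδ : 0 < δ)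
    (hT : 0 < T) (hF : FH T F F1) (S : Str W m ν T F u u1 z z1)
    (hG : (∫ s in (0 : ℝ)..T, ‖F1 s‖ ^ 2) ≤ G) (hΛ : ∀ t, 0 ≤ Λ t) {s0 : ℝ} (hs0 : s0 ∈ Ioo 0 T)
    (hΛi : IntervalIntegrable Λ volume s0 T)
    (hnum : ∀ᵐ s ∂(volume.restrict (Ioc s0 T)),
      -⟪m (u1 s), z s⟫_ℝ ≤ (1 - δ) * ν * ‖z1 s‖ ^ 2 + Λ s * (‖u1 s‖ ^ 2 + 1)) {a : H}
    (ha : HasDerivAt u a s0) :
    ∀ᵐ t ∂(volume.restrict (Ioc s0 T)),
      ‖u1 t‖ ≤ (1 + G / (2 * δ * ν)) * (1 + ‖a‖) * Real.exp (∫ s in s0..t, Λ s) := by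
  have hF2 : Integrable (fun s => ‖F1 s‖ ^ 2) (volume.restrict (Ioc 0 T)) :=
    (memLp_two_iff_integrable_sq_norm hF.memLp.aestronglyMeasurable).mp hF.memLp
  have hz2 : Integrable (fun s => ‖z1 s‖ ^ 2) (volume.restrict (Ioc 0 T)) :=
    (memLp_two_iff_integrable_sq_norm S.z1m.aestronglyMeasurable).mp S.z1m
  have hu2 : Integrable (fun s => ‖u1 s‖ ^ 2) (volume.restrict (Ioc 0 T)) :=
    (memLp_two_iff_integrable_sq_norm S.u1m.aestronglyMeasurable).mp S.u1m
  have hsub : (volume.restrict (Ioc s0 T) : Measure ℝ) ≤ volume.restrict (Ioc 0 T) :=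
    Measure.restrict_mono (Ioc_subset_Ioc_left hs0.1.le) le_rfl
  have hG0 : 0 ≤ G := (intervalIntegral.integral_nonneg hT.le fun s _ => by positivity).trans hG
  obtain ⟨c1, hc1⟩ := S.bd
  set y : ℝ → ℝ := fun s => ‖u1 s‖ ^ 2 + 1 with hy
  have hym : AEStronglyMeasurable y (volume.restrict (Ioc s0 T)) :=
    ((hu2.mono_measure hsub).aestronglyMeasurable).add aestronglyMeasurable_const
  have hyb : ∀ᵐ s ∂(volume.restrict (Ioc s0 T)), ‖y s‖ ≤ (max c1 0) ^ 2 + 1 := by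
    filter_upwards [ae_mono hsub hc1] with s hs
    rw [Real.norm_of_nonneg (by positivity)]
    have := hs.trans (le_max_left c1 0)
    simp only [hy]
    gcongr
  have hΛi0 : IntervalIntegrable (fun s => 2 * Λ s) volume s0 T := hΛi.const_mul 2
  have hΛi1 : Integrable (fun s => 2 * Λ s) (volume.restrict (Ioc s0 T)) :=
    (intervalIntegrable_iff_integrableOn_Ioc_of_le hs0.2.le).1 hΛi0
  have hprod : Integrable (fun s => 2 * Λ s * y s) (volume.restrict (Ioc s0 T)) :=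
    hΛi1.mul_bdd hym hyb
  set k : ℝ := ‖a‖ ^ 2 + 1 + G / (2 * δ * ν) with hk
  have hne : ∀ᵐ s : ℝ ∂(volume.restrict (Ioc s0 T)), s ≠ T := by
    refine ae_restrict_of_ae ?_
    simp [ae_iff, measure_singleton]
  have hmain : ∀ᵐ t ∂(volume.restrict (Ioc s0 T)), y t ≤ k + ∫ s in s0..t, 2 * Λ s * y s := by
    filter_upwards [ae_mono hsub (ae_deriv_of_prim hT (memLp_ii hT.le S.u1m) S.pu),
      ae_restrict_mem measurableSet_Ioc, hne] with t dt ht htne
    have htT : t < T := lt_of_le_of_ne ht.2 htne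
    obtain ⟨hmi, h1⟩ := lim_up Fr U Tr hν hT hF S hs0.1.le ht.1 htT ha dt
    have hsub2 : (volume.restrict (Ioc s0 t) : Measure ℝ) ≤ volume.restrict (Ioc 0 T) :=
      Measure.restrict_mono (Ioc_subset_Ioc hs0.1.le htT.le) le_rfl
    have hsub3 : (volume.restrict (Ioc s0 t) : Measure ℝ) ≤ volume.restrict (Ioc s0 T) :=
      Measure.restrict_mono (Ioc_subset_Ioc_right htT.le) le_rfl
    have hFzi : Integrable (fun s => ⟪F1 s, z1 s⟫_ℝ) (volume.restrict (Ioc s0 t)) :=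
      int_inner (hF.memLp.mono_measure hsub2) (S.z1m.mono_measure hsub2)
    have h2 : ∫ s in Ioc s0 t, 2 * (⟪F1 s, z1 s⟫_ℝ - ν * ‖z1 s‖ ^ 2 - ⟪m (u1 s), z s⟫_ℝ) ≤
        ∫ s in Ioc s0 t, (1 / (2 * δ * ν) * ‖F1 s‖ ^ 2 + 2 * Λ s * y s) := by
      refine integral_mono_ae (((hFzi.sub ((hz2.mono_measure hsub2).const_mul ν)).sub
        hmi).const_mul 2) (((hF2.mono_measure hsub2).const_mul _).add (hprod.mono_measure hsub3)) ?_
      filter_upwards [ae_mono hsub3 hnum] with s hs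
      have k1 : ⟪F1 s, z1 s⟫_ℝ ≤ ‖F1 s‖ * ‖z1 s‖ := real_inner_le_norm _ _
      have k2 : 2 * (‖F1 s‖ * ‖z1 s‖) ≤ 1 / (2 * δ * ν) * ‖F1 s‖ ^ 2 + 2 * (δ * ν) * ‖z1 s‖ ^ 2 := by
        have e1 : 1 / (2 * δ * ν) * ‖F1 s‖ ^ 2 + 2 * (δ * ν) * ‖z1 s‖ ^ 2 -
            2 * (‖F1 s‖ * ‖z1 s‖) = 1 / (2 * δ * ν) * (‖F1 s‖ - 2 * δ * ν * ‖z1 s‖) ^ 2 := by
          field_simp; ring
        have : 0 ≤ 1 / (2 * δ * ν) * (‖F1 s‖ - 2 * δ * ν * ‖z1 s‖) ^ 2 := by positivity
        linarith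
      simp only [hy]
      nlinarith
    rw [integral_add ((hF2.mono_measure hsub2).const_mul _) (hprod.mono_measure hsub3),
      integral_const_mul (1 / (2 * δ * ν)),
      ← intervalIntegral.integral_of_le ht.1.le (f := fun s => 2 * Λ s * y s)] at h2
    have h3 : ∫ s in Ioc s0 t, ‖F1 s‖ ^ 2 ≤ G := by
      refine le_trans ?_ hG
      rw [intervalIntegral.integral_of_le hT.le]
      exact setIntegral_mono_set hF2 (Eventually.of_forall fun s => by positivity)
        (Ioc_subset_Ioc hs0.1.le htT.le).eventuallyLE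
    have h4 : 1 / (2 * δ * ν) * (∫ s in Ioc s0 t, ‖F1 s‖ ^ 2) ≤ G / (2 * δ * ν) := by
      rw [div_mul_eq_mul_div, one_mul]
      exact div_le_div_of_nonneg_right h3 (by positivity)
    simp only [hy] at h2 ⊢
    rw [hk]
    linarith
  have h5 := gron_ae hs0.2.le hym hyb hΛi0 (fun s => by have := hΛ s; positivity) hmain
  filter_upwards [h5, ae_restrict_mem measurableSet_Ioc] with t ht ht2
  have e1 : ∫ s in s0..t, 2 * Λ s = 2 * ∫ s in s0..t, Λ s := intervalIntegral.integral_const_mul _ _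
  rw [e1] at ht
  set I : ℝ := ∫ s in s0..t, Λ s with hI
  have h6 : ‖u1 t‖ ^ 2 ≤ ((1 + G / (2 * δ * ν)) * (1 + ‖a‖) * Real.exp I) ^ 2 := by
    have e2 : Real.exp (2 * I) = Real.exp I ^ 2 := by rw [← Real.exp_nat_mul]; norm_num
    rw [e2] at ht
    have h7 : k ≤ ((1 + G / (2 * δ * ν)) * (1 + ‖a‖)) ^ 2 := by
      rw [hk]
      have h8 : 0 ≤ G / (2 * δ * ν) := by positivity
      have h9 := norm_nonneg a
      nlinarith [mul_nonneg h8 h9, mul_nonneg h8 (mul_nonneg h9 h9), mul_nonneg h8 h8,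
        mul_nonneg (mul_nonneg h8 h8) h9, mul_nonneg (mul_nonneg h8 h8) (mul_nonneg h9 h9)]
    have h8 : 0 < Real.exp I ^ 2 := by positivity
    rw [mul_pow _ (Real.exp I)]
    have h9 := mul_le_mul_of_nonneg_right h7 h8.le
    simp only [hy] at ht
    linarith
  exact (pow_le_pow_iff_left₀ (norm_nonneg _) (by positivity) (by norm_num)).mp h6

end eqn

end Pool.Agent.TH791.NSA
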