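import Pool.Agent.W795.ES.Stm
import Pool.Agent.W795.ES.Osc
import Pool.Agent.W795.TQ.DFin
import Pool.Agent.TH791.NSA.Grow

/-!
Growth of the energy of `∂ₜu` before a first singular time, in the abstract frame.
-/

set_option autoImplicit false

open MeasureTheory Set Filter Topology
open scoped InnerProductSpace

namespace Pool.Agent.TH791.NSA

open H772R2.NSR (Frame prim_cont)
open Pool.Agent.W795.TQ
open Pool.Agent.W795.ES

theorem al_abs (hit : S_iter) (hode : S_ode) (htp : S_dtp) (he1 : S_est1)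
    (he2 : S_est2) (hloc : S_loc) (huni : S_uni) : ∀ c : ℝ, 0 < c →
    ∀ (H K : Type) [NormedAddCommGroup H] [InnerProductSpace ℝ H] [CompleteSpace H]
      [NormedAddCommGroup K] [InnerProductSpace ℝ K] [CompleteSpace K]
      (W : Submodule ℝ (H × K)) (m : H → K) (C ν T : ℝ) (F F1 : ℝ → K) (x0 g0 : H) (z0 : K)
      (v : ℝ → H) (y : ℝ → K), Frame W m C → Univ W m c →
      (∀ R : ℝ, TotallyBounded {v : H | ∃ z, (v, z) ∈ W ∧ ‖z‖ ≤ R}) →
      0 < ν → 0 < T → FH T F F1 → (x0, z0) ∈ W →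
      (∀ p ∈ W, ⟪F 0 - ν • z0 + m x0, p.2⟫_ℝ = ⟪g0, p.1⟫_ℝ) →
      H772R2.NSG.LH W m T (fun _ => ν) F x0 v y →
      (∃ (u u1 : ℝ → H) (z z1 : ℝ → K), Str W m ν T F u u1 z z1 ∧ ∀ t ∈ Icc 0 T, v t = u t) ∨
      ∃ τ ∈ Ioc 0 T, (∀ t ∈ Ioo 0 τ, ∃ (u u1 : ℝ → H) (z z1 : ℝ → K), Str W m ν t F u u1 z z1 ∧
          ∀ s ∈ Icc 0 t, v s = u s) ∧
        ∀ (B : H → H → K) (δ : ℝ), Tri W m B → 0 < δ →
          ∀ s ∈ Ioo 0 τ, ∀ a : H, HasDerivAt v a s → ∃ Mc : ℝ, ∀ Λ : ℝ → ℝ, (∀ t, 0 ≤ Λ t) →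
            (∀ t ∈ Ioo s τ, IntervalIntegrable Λ volume s t) →
            (∀ T' ∈ Ioo s τ, ∀ (u u1 : ℝ → H) (z z1 : ℝ → K), Str W m ν T' F u u1 z z1 →
              (∀ t ∈ Icc 0 T', v t = u t) → ∀ᵐ t ∂(volume.restrict (Ioc s T')),
                -⟪m (u1 t), z t⟫_ℝ ≤ (1 - δ) * ν * ‖z1 t‖ ^ 2 + Λ t * (‖u1 t‖ ^ 2 + 1)) →
            ∀ t0 < τ, ∃ t ∈ Ioo t0 τ, s < t ∧
              3 / 4 * Real.log (1 / (τ - t)) - Mc ≤ ∫ r in s..t, Λ r := by
  intro c hc
  obtain ⟨k, hk, hcrit⟩ := dcrit hit hode htp he1 he2 hloc huni c hc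
  intro H K _ _ _ _ _ _ W m C ν T F F1 x0 g0 z0 v y Fr Un hcomp hν hT hF h0 hg L
  rcases hcrit H K W m C ν T F F1 x0 g0 z0 v y Fr Un hcomp hν hT hF h0 hg L with hl | hr
  · exact Or.inl hl
  refine Or.inr ?_
  obtain ⟨τ, hτ, hst, hU⟩ := hr
  refine ⟨τ, hτ, hst, ?_⟩
  intro B δ hB hδ s hs a ha
  have hFc : ContinuousOn F (Icc 0 T) := prim_cont hF.memLp hF.prim
  obtain ⟨Φ, hΦ0, hΦ⟩ : ∃ Φ : ℝ, 0 ≤ Φ ∧ ∀ t ∈ Icc 0 T, ‖F t‖ ≤ Φ := by
    obtain ⟨B, hB⟩ := (isCompact_Icc.image_of_continuousOn hFc).isBounded.exists_norm_le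
    exact ⟨max B 0, le_max_right _ _, fun t ht => (hB _ ⟨t, ht, rfl⟩).trans (le_max_left _ _)⟩
  obtain ⟨M0, hM0⟩ := L.bdd hν.le ⟨memLp_const _, Eventually.of_forall fun _ => le_rfl,
    H772R2.NSG.mem_cont hFc⟩
  have hF1i : IntegrableOn (fun s => ‖F1 s‖ ^ 2) (Ioc 0 T) :=
    (memLp_two_iff_integrable_sq_norm hF.memLp.aestronglyMeasurable).mp hF.memLp
  set G : ℝ := ∫ s in (0 : ℝ)..T, ‖F1 s‖ ^ 2 with hG
  have hG0 : 0 ≤ G := intervalIntegral.integral_nonneg hT.le fun s _ => by positivity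
  set A : ℝ := 1 + G / (2 * δ * ν) with hAdef
  have hA : 0 < A := by positivity
  have hν52 : 0 < ν ^ (5 / 2 : ℝ) := Real.rpow_pos_of_pos hν _
  set κ : ℝ := Real.sqrt (k * ν ^ (5 / 2 : ℝ) / 11) with hκ
  have hκ0 : 0 < κ := Real.sqrt_pos.2 (by positivity)
  have hκ2 : 11 * κ ^ 2 = k * ν ^ (5 / 2 : ℝ) := by
    rw [hκ, Real.sq_sqrt (by positivity)]; ring
  set A' : ℝ := A * (1 + ‖a‖) with hA'
  have hA'0 : 0 < A' := by positivity
  refine ⟨Real.log (A' / κ), ?_⟩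
  intro Λ hΛ0 hΛi hform t0 ht0
  by_contra hcon
  have hcon' : ∀ t, t0 < t → t < τ → s < t →
      ∫ r in s..t, Λ r < 3 / 4 * Real.log (1 / (τ - t)) - Real.log (A' / κ) := by
    intro t h1 h2 h3
    by_contra h4
    exact hcon ⟨t, ⟨h1, h2⟩, h3, not_lt.1 h4⟩
  set s' := max (max t0 s) 0 with hs'
  have hs'τ : s' < τ := max_lt (max_lt ht0 hs.2) hτ.1
  have hs'0 : 0 ≤ s' := le_max_right _ _
  have hss' : s ≤ s' := (le_max_right _ _).trans (le_max_left _ _)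
  have ht0s' : t0 ≤ s' := (le_max_left _ _).trans (le_max_left _ _)
  -- the rate
  have hrate : ∀ t, s' < t → t < τ →
      A' * Real.exp (∫ r in s..t, Λ r) ≤ κ * (τ - t) ^ (-(3 / 4) : ℝ) := by
    intro t h1 h2
    have h3 := hcon' t (ht0s'.trans_lt h1) h2 (hss'.trans_lt h1)
    have hp : 0 < τ - t := by linarith
    have h4 : Real.exp (∫ r in s..t, Λ r) ≤ (τ - t) ^ (-(3 / 4) : ℝ) * (κ / A') := by
      calc Real.exp (∫ r in s..t, Λ r)
          ≤ Real.exp (3 / 4 * Real.log (1 / (τ - t)) - Real.log (A' / κ)) :=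
            Real.exp_le_exp.2 h3.le
        _ = (τ - t) ^ (-(3 / 4) : ℝ) * (κ / A') := by
            rw [Real.exp_sub, Real.exp_log (by positivity), one_div, Real.log_inv,
              Real.rpow_def_of_pos hp]
            rw [show 3 / 4 * -Real.log (τ - t) = Real.log (τ - t) * (-(3 / 4)) by ring]
            field_simp
    calc A' * Real.exp (∫ r in s..t, Λ r) ≤ A' * ((τ - t) ^ (-(3 / 4) : ℝ) * (κ / A')) := by gcongr
      _ = κ * (τ - t) ^ (-(3 / 4) : ℝ) := by field_simp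
  -- increments
  have hinc : ∀ a b, s' < a → a ≤ b → b < τ →
      ‖v b - v a‖ ≤ 4 * κ * ((τ - a) ^ (1 / 4 : ℝ) - (τ - b) ^ (1 / 4 : ℝ)) := by
    intro a1 b ha1 hab hb
    set T' := (b + τ) / 2 with hT'
    have hbT' : b < T' := by simp only [hT']; linarith
    have hT'τ : T' < τ := by simp only [hT']; linarith
    have ha10 : 0 < a1 := by linarith
    have hT'0 : 0 < T' := by linarith
    obtain ⟨u, u1, z, z1, hS, hvu⟩ := hst T' ⟨hT'0, hT'τ⟩
    have hT'T : T' ≤ T := hT'τ.le.trans hτ.2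
    have hu0 : u 0 = x0 := by
      rw [← hvu 0 ⟨le_rfl, hT'0.le⟩]; exact L.init
    obtain ⟨_, hyz⟩ := huni H K W m C ν T T' F x0 v u u1 y z z1 Fr hν hT'0 hT'T hFc L hS hu0
    have hFH : FH T' F F1 :=
      ⟨hF.memLp.mono_measure (Measure.restrict_mono (Ioc_subset_Ioc_right hT'T) le_rfl),
        fun a b ha hab hb => hF.prim a b ha hab (hb.trans hT'T)⟩
    have hsT' : s < T' := by linarith
    have hder : HasDerivAt u a s := by
      refine ha.congr_of_eventuallyEq ?_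
      filter_upwards [Ioo_mem_nhds hs.1 hsT'] with r hr
      exact (hvu r ⟨hr.1.le, hr.2.le⟩).symm
    have hform' := hform T' ⟨hsT', hT'τ⟩ u u1 z z1 hS hvu
    have key := grow (G := G) Fr Un hB hν hδ hT'0 hFH hS
      (by
        rw [hG, intervalIntegral.integral_of_le hT'0.le, intervalIntegral.integral_of_le hT.le]
        exact setIntegral_mono_set hF1i (Eventually.of_forall fun s => by positivity)
          (Ioc_subset_Ioc_right hT'T).eventuallyLE)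
      hΛ0 ⟨hs.1, hsT'⟩ (hΛi T' ⟨hsT', hT'τ⟩) hform' hder
    have hpu := hS.pu a1 b ha10.le hab hbT'.le
    rw [hvu b ⟨by linarith, hbT'.le⟩, hvu a1 ⟨ha10.le, by linarith⟩]
    refine increment hab hb hpu ?_
    have h1 := ae_mono (Measure.restrict_mono (Ioc_subset_Ioc (hss'.trans ha1.le) hbT'.le)
      le_rfl) key
    filter_upwards [h1, ae_restrict_mem measurableSet_Ioc] with t h2 h3
    refine h2.trans ?_
    exact hrate t (ha1.trans h3.1) (by linarith [h3.2])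
  obtain ⟨U, hUb⟩ := limit_state hs'τ hκ0.le hinc
  -- continuity of v
  have hvc : ContinuousOn v (Ioo s' τ) := by
    intro t ht
    set T' := (t + τ) / 2 with hT'
    have hbT' : t < T' := by simp only [hT']; linarith [ht.2]
    have hT'τ : T' < τ := by simp only [hT']; linarith [ht.2]
    have ht0' : 0 < t := by linarith [ht.1]
    obtain ⟨u, u1, z, z1, hS, hvu⟩ := hst T' ⟨by linarith, hT'τ⟩
    have huc : ContinuousOn u (Icc 0 T') := prim_cont hS.u1m hS.pu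
    have h1 : ContinuousAt u t := huc.continuousAt (Icc_mem_nhds ht0' hbT')
    have h2 : ContinuousAt v t := by
      refine h1.congr ?_
      filter_upwards [Icc_mem_nhds ht0' hbT'] with r hr
      exact (hvu r hr).symm
    exact h2.continuousWithinAt
  obtain ⟨h, hh0, hh1, hh2⟩ := hU U (τ - s') (by linarith) (by linarith)
  have h3 := int_sq hκ0.le hvc hUb hh0 hh1
  rw [hκ2] at h3
  linarith

end Pool.Agent.TH791.NSA
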