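import Pool.Agent.H772R2.NS.Pub

/-!
Public definitions: the forms `a·(b·∇)w` and `tr (∇w)²`.
-/

set_option autoImplicit false

open MeasureTheory Set
open scoped InnerProductSpace

namespace Pool.Agent.TH791.NSA

open H772R2.NS.Pub

/-- The matrix with the entries `a_i b_j`. -/
noncomputable def tp (a b : R3) : Mat :=
  WithLp.toLp 2 fun p : Fin 3 × Fin 3 => ⟪e p.1, a⟫_ℝ * ⟪e p.2, b⟫_ℝ

/-- `adv A a b = ∑ a_i A_ij b_j`; for `A = ∇w`, that is `A_ij = ∂_j w_i`, this is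
`a·((b·∇)w)`. -/
noncomputable def adv (A : Mat) (a b : R3) : ℝ := ⟪A, tp a b⟫_ℝ

/-- The trace of the square, `∑ A_ij A_ji`. -/
noncomputable def trSq (A : Mat) : ℝ := ∑ i, ∑ j, adv A (e i) (e j) * adv A (e j) (e i)

end Pool.Agent.TH791.NSA
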