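import Pool.Agent.W795.TQ.DPub
import Pool.Agent.TH791.NSA.Fin
import Pool.Agent.TH791.NSA.Conc
import Pool.Agent.TH791.NSA.PubDef

/-! The criterion in a domain. -/

set_option autoImplicit false
set_option linter.all false

open MeasureTheory Set Filter Topology
open scoped InnerProductSpace ENNReal ContDiff

namespace Pool.Agent.TH791.NSA

open H772R2.NS H772R2.NS.Pub H772R2.NSR H772R2.NSG
open Pool.Agent.W795.TQ
open Pool.Agent.W795.ES (Tri)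
open Pool.Agent.W91.ES (tn tn_apply BL)

theorem adv_eq (A : M3) (a b : E3) : adv A a b = ⟪A, tn b a⟫_ℝ := by
  unfold adv
  refine congrArg (fun y : M3 => ⟪A, y⟫_ℝ) ?_
  refine PiLp.ext fun r => ?_
  show ⟪(Pub.e r.1 : E3), (a : E3)⟫_ℝ * ⟪(Pub.e r.2 : E3), (b : E3)⟫_ℝ = _
  rw [inner_e, inner_e]
  rfl

theorem adv_e (A : M3) (i j : Fin 3) : adv A (Pub.e i) (Pub.e j) = A (i, j) := by
  have h1 : adv A (Pub.e i) (Pub.e j) =
      ⟪A, tn (EuclideanSpace.single j (1 : ℝ) : E3) (EuclideanSpace.single i (1 : ℝ) : E3)⟫_ℝ :=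
    adv_eq A _ _
  rw [h1, inner_M3]
  have h2 : ∀ k l : Fin 3,
      tn (EuclideanSpace.single j (1 : ℝ) : E3) (EuclideanSpace.single i (1 : ℝ) : E3) (k, l) =
      (if k = i then 1 else 0) * (if l = j then 1 else 0) := by
    intro k l
    rw [tn_apply]
    simp
  simp [h2]

theorem trSq_eq (A : M3) : trSq A = trS A := by
  unfold trSq trS
  refine Finset.sum_congr rfl fun i _ => Finset.sum_congr rfl fun j _ => ?_
  rw [adv_e, adv_e]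

theorem ae_deriv {Ω : Set E3} {ν T : ℝ} (hT : 0 < T) {F : ℝ → L2M Ω}
    {v u u1 : ℝ → L2V Ω} {z z1 : ℝ → L2M Ω} (B : Str (graphW Ω) tensL ν T F u u1 z z1)
    (hv : ∀ t ∈ Icc 0 T, v t = u t) :
    ∀ᵐ s ∂(volume.restrict (Ioc 0 T)), deriv v s = u1 s := by
  have hne : ∀ᵐ s : ℝ ∂(volume.restrict (Ioc 0 T)), s ≠ T := by
    refine ae_restrict_of_ae ?_
    simp [ae_iff, measure_singleton]
  filter_upwards [ae_deriv_of_prim hT (memLp_ii hT.le B.u1m) B.pu,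
    ae_restrict_mem measurableSet_Ioc, hne] with s h1 h2 h3
  have h4 : HasDerivAt v (u1 s) s := by
    refine h1.congr_of_eventuallyEq ?_
    filter_upwards [Ioo_mem_nhds h2.1 (lt_of_le_of_ne h2.2 h3)] with r hr
    exact hv r ⟨hr.1.le, hr.2.le⟩
  exact h4.deriv

theorem strong_deriv {Ω : Set E3} (hΩ : IsOpen Ω) {ν T : ℝ} (hT : 0 < T) {F : ℝ → L2M Ω}
    {v u u1 : ℝ → L2V Ω} {z z1 : ℝ → L2M Ω} (B : Str (graphW Ω) tensL ν T F u u1 z z1)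
    (hv : ∀ t ∈ Icc 0 T, v t = u t) :
    IsStrong (show Set R3 from Ω) ν T F v (deriv v) z z1 := by
  have h0 := strong_of_str hΩ hT B hv
  have hd := ae_deriv hT B hv
  refine ⟨h0.grad, ?_, ?_, h0.hG, ?_, h0.eqn⟩
  · filter_upwards [B.mem1, hd] with t h1 h2
    have h3 : (deriv v t, z1 t) ∈ graphW Ω := by rw [h2]; exact h1
    exact mem_pub.mp h3
  · refine ⟨B.u1m.ae_eq (hd.mono fun s hs => hs.symm), fun a b ha hab hb => ?_⟩
    refine (h0.hu.prim a b ha hab hb).trans ?_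
    refine intervalIntegral.integral_congr_ae ?_
    rw [ae_restrict_iff' measurableSet_Ioc] at hd
    filter_upwards [hd] with s hs hs2
    rw [uIoc_of_le hab] at hs2
    exact (hs ⟨by linarith [hs2.1], by linarith [hs2.2]⟩).symm
  · obtain ⟨c, hc⟩ := B.bd
    refine ⟨c, ?_⟩
    filter_upwards [hc, hd] with t h1 h2
    have h3 : ‖(deriv v t : L2V Ω)‖ ≤ c := by rw [h2]; exact h1
    exact h3

theorem al_mid (hit : S_iter) (hode : S_ode) (htp : S_dtp)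
    (he1 : S_est1) (he2 : S_est2) (hloc : S_loc) (huni : S_uni) (hun : S_univ) :
    ∀ (Ω : Set E3), IsOpen Ω → Bornology.IsBounded Ω → ∀ (ν T : ℝ), 0 < ν → 0 < T →
    ∀ (F F' : ℝ → L2M Ω), MemLp F' 2 (volume.restrict (Ioc 0 T)) →
    (∀ a b, 0 ≤ a → a ≤ b → b ≤ T → F b - F a = ∫ s in a..b, F' s) →
    ∀ (u : ℝ → L2V Ω) (z : ℝ → L2M Ω), AEStronglyMeasurable u (volume.restrict (Ioc 0 T)) →
    (∀ᵐ t ∂(volume.restrict (Ioc 0 T)), (u t, z t) ∈ graphW Ω) →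
    MemLp z 2 (volume.restrict (Ioc 0 T)) →
    (∀ φ : E3 → E3, H772R2.NS.IsTest Ω φ → ∀ t ∈ Icc 0 T,
      (∫ x in (show Set R3 from Ω), ⟪L2.fn (Ω := Ω) (E := R3) (u t) x, (φ : R3 → R3) x⟫_ℝ)
        - (∫ x in (show Set R3 from Ω), ⟪L2.fn (Ω := Ω) (E := R3) (u 0) x, (φ : R3 → R3) x⟫_ℝ)
      = ∫ s in (0 : ℝ)..t, Pub.rhs (Ω := Ω) ν (u s) (z s) (F s) φ) →
    (∀ t ∈ Icc 0 T, ‖u t‖ ^ 2 / 2 + ν * (∫ s in (0 : ℝ)..t, ‖z s‖ ^ 2)
      ≤ ‖u 0‖ ^ 2 / 2 + ∫ s in (0 : ℝ)..t, ⟪F s, z s⟫_ℝ) →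
    ∀ z0 : L2M Ω, (u 0, z0) ∈ graphW Ω →
    (∃ h : L2V Ω, ∀ φ : E3 → E3, H772R2.NS.IsTest Ω φ →
      Pub.rhs (Ω := Ω) ν (u 0) z0 (F 0) φ
        = ∫ x in (show Set R3 from Ω), ⟪L2.fn (Ω := Ω) (E := R3) h x, (φ : R3 → R3) x⟫_ℝ) →
    (∃ G1 G', IsStrong (show Set R3 from Ω) ν T F u (deriv u) G1 G') ∨
    ∃ τ ∈ Ioc 0 T, (∀ t ∈ Ioo 0 τ, ∃ G1 G',
        IsStrong (show Set R3 from Ω) ν t F u (deriv u) G1 G') ∧
      ∀ (δ M : ℝ) (r b : ℝ≥0∞) (s a t1 : ℝ), 0 < δ → δ ≤ 1 → 0 ≤ M →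
        3 / 2 < r → 2 / s + 3 / r.toReal = 2 → 6 < b → 2 / a + 3 / b.toReal = 1 / 2 →
        0 ≤ t1 → t1 < τ →
      ∃ Cc : ℝ, ∀ (ρ η g : ℝ → E3 → ℝ) (P Q L : ℝ → ℝ),
        (∀ t, 0 ≤ P t) → (∀ t, 0 ≤ Q t) → (∀ t, 0 ≤ L t) →
        (∀ t ∈ Ioo t1 τ, IntervalIntegrable (fun y => P y ^ s + Q y ^ a + L y) volume t1 t) →
        (∀ᵐ t ∂(volume.restrict (Ioo t1 τ)),
          AEStronglyMeasurable (ρ t) (volume.restrict Ω) ∧
          AEStronglyMeasurable (g t) (volume.restrict Ω) ∧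
          eLpNorm (ρ t) r (volume.restrict Ω) ≤ ENNReal.ofReal (P t) ∧
          eLpNorm (g t) b (volume.restrict Ω) ≤ ENNReal.ofReal (Q t) ∧
          ∀ p ∈ graphW Ω, Integrable (fun x => |η t x| * ‖p.1 x‖ ^ 2) (volume.restrict Ω) ∧
            (∫ x in Ω, |η t x| * ‖p.1 x‖ ^ 2) ≤ δ / 2 * ν * ‖p.2‖ ^ 2 + L t * ‖p.1‖ ^ 2) →
        (∀ᵐ t ∂(volume.restrict (Ioo t1 τ)), ∀ A : L2M Ω, (deriv u t, A) ∈ graphW Ω →
          ∃ θ lam κ : ℝ, |θ| ≤ M ∧ |lam| ≤ M ∧ |κ| ≤ 1 ∧ ∀ᵐ x ∂(volume.restrict Ω),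
            M < ‖((deriv u t : L2V Ω) : E3 → E3) x‖ →
            M < ‖(u t : E3 → E3) x - θ • ((deriv u t : L2V Ω) : E3 → E3) x‖ →
            ⟪A x, tn (((deriv u t : L2V Ω) : E3 → E3) x)
                ((u t : E3 → E3) x - θ • ((deriv u t : L2V Ω) : E3 → E3) x)⟫_ℝ -
              lam * ⟪A x, tn ((u t : E3 → E3) x - θ • ((deriv u t : L2V Ω) : E3 → E3) x)
                (((deriv u t : L2V Ω) : E3 → E3) x)⟫_ℝ
            ≤ (1 - δ) * ν * (‖A x‖ ^ 2 + κ * trS (A x)) +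
              (ρ t x + η t x) * ‖((deriv u t : L2V Ω) : E3 → E3) x‖ ^ 2 +
              g t x * ‖(u t : E3 → E3) x‖ * ‖((deriv u t : L2V Ω) : E3 → E3) x‖ ^ 2) →
        ∀ t0 < τ, ∃ t ∈ Ioo t0 τ, t1 < t ∧
          Real.log (1 / (τ - t)) ≤ Cc * (1 + ∫ y in t1..t, (P y ^ s + Q y ^ a + L y)) := by
  intro Ω hΩ hb ν T hν hT F F' hF1 hF u z hmeas hmem hz2 heqn hen z0 h0 hg
  obtain ⟨c, hc, hU⟩ := hun
  obtain ⟨C, Fr⟩ := exists_frame hΩ hb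
  obtain ⟨g0, hg0⟩ := hg
  have hm : MeasurableSet Ω := hΩ.measurableSet
  have hcomp : ∀ p ∈ graphW Ω, ⟪F 0 - ν • z0 + tensL (u 0), p.2⟫_ℝ = ⟪g0, p.1⟫_ℝ := by
    refine compat_ext ?_
    rintro p ⟨φ, k1, k2, k3⟩
    rw [← pub_rhs hm ν (F 0) h0 k3, ← pub_inner (Ω := Ω) g0 k2]
    exact hg0 φ k1
  have hFc : ContinuousOn F (Icc 0 T) := prim_cont hF1 hF
  have hLH := lh_mid hΩ hFc Fr hmeas hmem hz2 heqn hen
  obtain ⟨M0, hM0⟩ := hLH.bdd hν.le ⟨memLp_const _, Eventually.of_forall fun _ => le_rfl,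
    H772R2.NSG.mem_cont hFc⟩
  rcases al_abs hit hode htp he1 he2 hloc huni c hc (L2V Ω) (L2M Ω) (graphW Ω) tensL C ν T
    F F' (u 0) g0 z0 u z Fr (hU _ hΩ) (rellich_W hΩ hb) hν hT ⟨hF1, hF⟩ h0 hcomp hLH with
    ⟨w, w1, y, y1, k1, k2⟩ | ⟨τ, hτ, k1, k2⟩
  · exact Or.inl ⟨y, y1, strong_deriv hΩ hT k1 k2⟩
  refine Or.inr ⟨τ, hτ, fun t ht => ?_, ?_⟩
  · obtain ⟨w, w1, y, y1, k3, k4⟩ := k1 t ht
    exact ⟨y, y1, strong_deriv hΩ ht.1 k3 k4⟩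
  intro δ M r b s a t1 hδ hδ1 hM hr hs hb' ha ht1 ht1τ
  obtain ⟨K, hK, hprod⟩ := prod_fin ν δ M r b s a (max M0 0) hν hδ hδ1 hM hr hs hb' ha
    (le_max_right _ _)
  -- a time at which `u` is differentiable
  obtain ⟨s0, hs0, a0, ha0⟩ : ∃ r ∈ Ioo t1 τ, ∃ a, HasDerivAt u a r := by
    have hT'0 : 0 < (t1 + τ) / 2 := by linarith [hτ.1]
    have hT'τ : (t1 + τ) / 2 < τ := by linarith
    obtain ⟨w, w1, y, y1, k3, k4⟩ := k1 ((t1 + τ) / 2) ⟨hT'0, hT'τ⟩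
    have hd := ae_deriv_of_prim hT'0 (memLp_ii hT'0.le k3.u1m) k3.pu
    have hpos : volume (Ioo t1 ((t1 + τ) / 2)) ≠ 0 := by
      rw [Real.volume_Ioo]
      simp only [ne_eq, ENNReal.ofReal_eq_zero, not_le]
      linarith
    have hss : Ioo t1 ((t1 + τ) / 2) ⊆ Ioc 0 ((t1 + τ) / 2) :=
      fun x hx => ⟨ht1.trans_lt hx.1, hx.2.le⟩
    have hsub : (volume.restrict (Ioo t1 ((t1 + τ) / 2)) : Measure ℝ)
        ≤ volume.restrict (Ioc 0 ((t1 + τ) / 2)) := Measure.restrict_mono hss le_rfl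
    have h1 : ∀ᵐ x ∂(volume.restrict (Ioo t1 ((t1 + τ) / 2))), HasDerivAt w (w1 x) x :=
      ae_mono hsub hd
    rw [ae_restrict_iff' measurableSet_Ioo] at h1
    have h2 : ∃ x ∈ Ioo t1 ((t1 + τ) / 2), HasDerivAt w (w1 x) x := by
      by_contra hcon
      push Not at hcon
      refine hpos (measure_mono_null (t := {x | ¬ (x ∈ Ioo t1 ((t1 + τ) / 2) →
        HasDerivAt w (w1 x) x)}) ?_ h1)
      intro x hx
      simp only [mem_setOf_eq, not_forall]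
      exact ⟨hx, hcon x hx⟩
    obtain ⟨x, hx, hdx⟩ := h2
    refine ⟨x, ⟨hx.1, hx.2.trans hT'τ⟩, w1 x, hdx.congr_of_eventuallyEq ?_⟩
    filter_upwards [Ioo_mem_nhds (ht1.trans_lt hx.1) hx.2] with x' hx'
    exact k4 x' ⟨hx'.1.le, hx'.2.le⟩
  have hs00 : 0 < s0 := ht1.trans_lt hs0.1
  obtain ⟨Mc, hMc⟩ := k2 BL (δ / 4) (Pool.Agent.W91.ES.tri hm) (by positivity) s0
    ⟨hs00, hs0.2⟩ a0 ha0
  refine ⟨4 / 3 * (|Mc| + K * T + K), ?_⟩
  intro ρ η g P Q L hP hQ hL hPQi hnorm hcrit t0 ht0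
  set J : ℝ → ℝ := fun y => P y ^ s + Q y ^ a + L y with hJ
  have hJ0 : ∀ y, 0 ≤ J y := fun y => by
    have := hP y; have := hQ y; have := hL y
    simp only [hJ]; positivity
  have hJs : ∀ t, s0 < t → t < τ → IntervalIntegrable J volume s0 t := by
    intro t h1 h2
    refine (hPQi t ⟨hs0.1.trans h1, h2⟩).mono_set ?_
    rw [uIcc_of_le h1.le, uIcc_of_le (hs0.1.trans h1).le]
    exact Icc_subset_Icc_left hs0.1.le
  obtain ⟨t, ht, hst, hlog⟩ := hMc (fun y => K * (1 + J y))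
    (fun y => by have := hJ0 y; positivity)
    (fun y hy => (intervalIntegrable_const.add (hJs y hy.1 hy.2)).const_mul K) (by
      intro T' hT' w w1 y y1 hS hvw
      have hss : Ioc s0 T' ⊆ Ioo t1 τ := fun x hx => ⟨hs0.1.trans hx.1, hx.2.trans_lt hT'.2⟩
      have hsub : (volume.restrict (Ioc s0 T') : Measure ℝ) ≤ volume.restrict (Ioo t1 τ) :=
        Measure.restrict_mono hss le_rfl
      have hsub2 : (volume.restrict (Ioc s0 T') : Measure ℝ) ≤ volume.restrict (Ioc 0 T') :=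
        Measure.restrict_mono (Ioc_subset_Ioc_left hs00.le) le_rfl
      have hT'0 : 0 < T' := hs00.trans hT'.1
      filter_upwards [ae_mono hsub hnorm, ae_mono hsub hcrit, ae_mono hsub2 hS.mem1,
        ae_mono hsub2 (ae_deriv hT'0 hS hvw), ae_restrict_mem measurableSet_Ioc]
        with t j1 j2 j3 j4 j5
      obtain ⟨m1, m2, m3, m4, m5⟩ := j1
      have hmem' : (deriv u t, y1 t) ∈ graphW Ω := by rw [j4]; exact j3
      obtain ⟨θ, lam, κ, n1, n2, n3, n4⟩ := j2 (y1 t) hmem'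
      have j6 : t ∈ Icc 0 T' := ⟨hs00.le.trans j5.1.le, j5.2⟩
      have hq : (u t, y t) ∈ graphW Ω := by
        rw [hvw t j6]; exact hS.mem t j6
      have hb1 : ‖u t‖ ≤ max M0 0 :=
        (hM0 t ⟨j6.1, j6.2.trans (hT'.2.le.trans hτ.2)⟩).trans (le_max_left _ _)
      obtain ⟨m6, m7⟩ := m5 _ hmem'
      have := hprod Ω hm (deriv u t, y1 t) hmem' (u t, y t) hq hb1 θ lam κ (ρ t) (η t) (g t)
        (P t) (Q t) (L t) n1 n2 n3 m1 m2 (hP t) (hQ t) (hL t) m3 m4 m6 m7 n4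
      simp only at this
      rw [j4] at this
      exact this) t0 ht0
  have ht' : t ∈ Ioo t1 τ := ⟨hs0.1.trans hst, ht.2⟩
  refine ⟨t, ht, ht'.1, ?_⟩
  have hJi := hPQi t ht'
  have hJi' : IntegrableOn J (Ioc t1 t) volume := by
    rwa [intervalIntegrable_iff_integrableOn_Ioc_of_le ht'.1.le] at hJi
  have e1 : ∫ y in s0..t, K * (1 + J y) = K * ((t - s0) + ∫ y in s0..t, J y) := by
    rw [intervalIntegral.integral_const_mul, intervalIntegral.integral_add intervalIntegrable_const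
      (hJs t hst ht.2), intervalIntegral.integral_const]
    simp
  have e2 : ∫ y in s0..t, J y ≤ ∫ y in t1..t, J y := by
    rw [intervalIntegral.integral_of_le hst.le, intervalIntegral.integral_of_le ht'.1.le]
    exact setIntegral_mono_set hJi' (Eventually.of_forall hJ0)
      (Ioc_subset_Ioc_left hs0.1.le).eventuallyLE
  have e3 : 0 ≤ ∫ y in t1..t, J y := intervalIntegral.integral_nonneg ht'.1.le fun y _ => hJ0 y
  rw [e1] at hlog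
  have e4 : t - s0 ≤ T := by linarith [ht'.2, hτ.2]
  have e5 : K * ((t - s0) + ∫ y in s0..t, J y) ≤ K * (T + ∫ y in t1..t, J y) := by gcongr
  have e6 : Mc ≤ |Mc| := le_abs_self _
  have e7 : 0 ≤ |Mc| := abs_nonneg _
  have e8 : 0 ≤ K * T := by positivity
  set I := ∫ y in t1..t, J y
  show _ ≤ 4 / 3 * (|Mc| + K * T + K) * (1 + I)
  nlinarith [mul_nonneg e7 e3, mul_nonneg e8 e3, mul_nonneg hK e3]

end Pool.Agent.TH791.NSA
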